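import Mathlib

set_option autoImplicit false

noncomputable section

universe u

namespace Pool.Agent.H405R3.FP

/-- The semidirect product of the Lie algebra with basis `a, b`, `[a, b] = b`, and a module `M`
on which `a, b` act by `A, B`. The triple `(s, r, m)` stands for `s a + r b + m`. -/
@[ext] structure SD (k M : Type u) [Field k] [AddCommGroup M] [Module k M] (A B : M →ₗ[k] M)
    (hAB : ∀ m, A (B m) - B (A m) = B m) : Type u where
  s : k
  r : k
  m : M

namespace SD

variable {k M : Type u} [Field k] [AddCommGroup M] [Module k M] {A B : M →ₗ[k] M}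
  {hAB : ∀ m, A (B m) - B (A m) = B m}

instance : Zero (SD k M A B hAB) := ⟨⟨0, 0, 0⟩⟩
instance : Add (SD k M A B hAB) := ⟨fun x y => ⟨x.s + y.s, x.r + y.r, x.m + y.m⟩⟩
instance : Neg (SD k M A B hAB) := ⟨fun x => ⟨-x.s, -x.r, -x.m⟩⟩
instance : Sub (SD k M A B hAB) := ⟨fun x y => ⟨x.s - y.s, x.r - y.r, x.m - y.m⟩⟩
instance : SMul k (SD k M A B hAB) := ⟨fun c x => ⟨c * x.s, c * x.r, c • x.m⟩⟩
instance : SMul ℕ (SD k M A B hAB) := ⟨fun c x => ⟨c • x.s, c • x.r, c • x.m⟩⟩
instance : SMul ℤ (SD k M A B hAB) := ⟨fun c x => ⟨c • x.s, c • x.r, c • x.m⟩⟩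

@[simp] lemma zero_s : (0 : SD k M A B hAB).s = 0 := rfl
@[simp] lemma zero_r : (0 : SD k M A B hAB).r = 0 := rfl
@[simp] lemma zero_m : (0 : SD k M A B hAB).m = 0 := rfl
@[simp] lemma add_s (x y : SD k M A B hAB) : (x + y).s = x.s + y.s := rfl
@[simp] lemma add_r (x y : SD k M A B hAB) : (x + y).r = x.r + y.r := rfl
@[simp] lemma add_m (x y : SD k M A B hAB) : (x + y).m = x.m + y.m := rfl
@[simp] lemma neg_s (x : SD k M A B hAB) : (-x).s = -x.s := rfl
@[simp] lemma neg_r (x : SD k M A B hAB) : (-x).r = -x.r := rfl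
@[simp] lemma neg_m (x : SD k M A B hAB) : (-x).m = -x.m := rfl
@[simp] lemma sub_s (x y : SD k M A B hAB) : (x - y).s = x.s - y.s := rfl
@[simp] lemma sub_r (x y : SD k M A B hAB) : (x - y).r = x.r - y.r := rfl
@[simp] lemma sub_m (x y : SD k M A B hAB) : (x - y).m = x.m - y.m := rfl
@[simp] lemma smul_s (c : k) (x : SD k M A B hAB) : (c • x).s = c * x.s := rfl
@[simp] lemma smul_r (c : k) (x : SD k M A B hAB) : (c • x).r = c * x.r := rfl
@[simp] lemma smul_m (c : k) (x : SD k M A B hAB) : (c • x).m = c • x.m := rfl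

lemma toProd_injective : Function.Injective (fun x : SD k M A B hAB => (x.s, x.r, x.m)) := by
  intro x y h
  simp only [Prod.mk.injEq] at h
  exact SD.ext h.1 h.2.1 h.2.2

instance : AddCommGroup (SD k M A B hAB) :=
  toProd_injective.addCommGroup _ rfl (fun _ _ => rfl) (fun _ => rfl) (fun _ _ => rfl)
    (fun _ _ => rfl) (fun _ _ => rfl)

instance : Module k (SD k M A B hAB) :=
  toProd_injective.module k ⟨⟨fun x : SD k M A B hAB => (x.s, x.r, x.m), rfl⟩, fun _ _ => rfl⟩
    (fun _ _ => rfl)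

instance : Bracket (SD k M A B hAB) (SD k M A B hAB) :=
  ⟨fun x y => ⟨0, x.s * y.r - y.s * x.r,
    (x.s • A y.m + x.r • B y.m) - (y.s • A x.m + y.r • B x.m)⟩⟩

@[simp] lemma lie_s (x y : SD k M A B hAB) : ⁅x, y⁆.s = 0 := rfl
@[simp] lemma lie_r (x y : SD k M A B hAB) : ⁅x, y⁆.r = x.s * y.r - y.s * x.r := rfl
@[simp] lemma lie_m (x y : SD k M A B hAB) : ⁅x, y⁆.m =
    (x.s • A y.m + x.r • B y.m) - (y.s • A x.m + y.r • B x.m) := rfl

instance : LieRing (SD k M A B hAB) where
  add_lie x y z := SD.ext (by simp) (by simp; ring) (by simp; module)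
  lie_add x y z := SD.ext (by simp) (by simp; ring) (by simp; module)
  lie_self x := SD.ext (by simp) (by simp) (by simp)
  leibniz_lie x y z := by
    ext
    · simp
    · simp; ring
    · have hx := hAB x.m
      have hy := hAB y.m
      have hz := hAB z.m
      rw [sub_eq_iff_eq_add] at hx hy hz
      simp only [lie_m, lie_s, lie_r, map_sub, map_add, map_smul, add_m, hx, hy, hz]
      module

instance : LieAlgebra k (SD k M A B hAB) where
  lie_smul c x y := SD.ext (by simp) (by simp; ring) (by simp; module)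

end SD

/-- The Lie algebra of triples `(c, p, q)` standing for `c d + p a + q b` with `p, q` in a
commutative algebra `C` with derivation `d`. -/
@[ext] structure RR (k C : Type u) [Field k] [CommRing C] [Algebra k C] (d : Derivation k C C) :
    Type u where
  c : k
  p : C
  q : C

namespace RR

variable {k C : Type u} [Field k] [CommRing C] [Algebra k C] {d : Derivation k C C}

instance : Zero (RR k C d) := ⟨⟨0, 0, 0⟩⟩
instance : Add (RR k C d) := ⟨fun x y => ⟨x.c + y.c, x.p + y.p, x.q + y.q⟩⟩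
instance : Neg (RR k C d) := ⟨fun x => ⟨-x.c, -x.p, -x.q⟩⟩
instance : Sub (RR k C d) := ⟨fun x y => ⟨x.c - y.c, x.p - y.p, x.q - y.q⟩⟩
instance : SMul k (RR k C d) := ⟨fun c x => ⟨c * x.c, c • x.p, c • x.q⟩⟩
instance : SMul ℕ (RR k C d) := ⟨fun c x => ⟨c • x.c, c • x.p, c • x.q⟩⟩
instance : SMul ℤ (RR k C d) := ⟨fun c x => ⟨c • x.c, c • x.p, c • x.q⟩⟩

@[simp] lemma zero_c : (0 : RR k C d).c = 0 := rfl
@[simp] lemma zero_p : (0 : RR k C d).p = 0 := rfl
@[simp] lemma zero_q : (0 : RR k C d).q = 0 := rfl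
@[simp] lemma add_c (x y : RR k C d) : (x + y).c = x.c + y.c := rfl
@[simp] lemma add_p (x y : RR k C d) : (x + y).p = x.p + y.p := rfl
@[simp] lemma add_q (x y : RR k C d) : (x + y).q = x.q + y.q := rfl
@[simp] lemma neg_c (x : RR k C d) : (-x).c = -x.c := rfl
@[simp] lemma neg_p (x : RR k C d) : (-x).p = -x.p := rfl
@[simp] lemma neg_q (x : RR k C d) : (-x).q = -x.q := rfl
@[simp] lemma sub_c (x y : RR k C d) : (x - y).c = x.c - y.c := rfl
@[simp] lemma sub_p (x y : RR k C d) : (x - y).p = x.p - y.p := rfl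
@[simp] lemma sub_q (x y : RR k C d) : (x - y).q = x.q - y.q := rfl
@[simp] lemma smul_c (c : k) (x : RR k C d) : (c • x).c = c * x.c := rfl
@[simp] lemma smul_p (c : k) (x : RR k C d) : (c • x).p = c • x.p := rfl
@[simp] lemma smul_q (c : k) (x : RR k C d) : (c • x).q = c • x.q := rfl

lemma toProd_injective : Function.Injective (fun x : RR k C d => (x.c, x.p, x.q)) := by
  intro x y h
  simp only [Prod.mk.injEq] at h
  exact RR.ext h.1 h.2.1 h.2.2

instance : AddCommGroup (RR k C d) :=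
  toProd_injective.addCommGroup _ rfl (fun _ _ => rfl) (fun _ => rfl) (fun _ _ => rfl)
    (fun _ _ => rfl) (fun _ _ => rfl)

instance : Module k (RR k C d) :=
  toProd_injective.module k ⟨⟨fun x : RR k C d => (x.c, x.p, x.q), rfl⟩, fun _ _ => rfl⟩
    (fun _ _ => rfl)

instance : Bracket (RR k C d) (RR k C d) :=
  ⟨fun x y => ⟨0, x.c • d y.p - y.c • d x.p,
    (x.c • d y.q - y.c • d x.q) + (x.p * y.q - y.p * x.q)⟩⟩

@[simp] lemma lie_c (x y : RR k C d) : ⁅x, y⁆.c = 0 := rfl
@[simp] lemma lie_p (x y : RR k C d) : ⁅x, y⁆.p = x.c • d y.p - y.c • d x.p := rfl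
@[simp] lemma lie_q (x y : RR k C d) : ⁅x, y⁆.q =
    (x.c • d y.q - y.c • d x.q) + (x.p * y.q - y.p * x.q) := rfl

instance : LieRing (RR k C d) where
  add_lie x y z := by
    ext <;> simp only [lie_c, lie_p, lie_q, add_c, add_p, add_q, map_add, Algebra.smul_def] <;> ring
  lie_add x y z := by
    ext <;> simp only [lie_c, lie_p, lie_q, add_c, add_p, add_q, map_add, Algebra.smul_def] <;> ring
  lie_self x := by
    ext <;> simp only [lie_c, lie_p, lie_q, zero_c, zero_p, zero_q] <;> ring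
  leibniz_lie x y z := by
    ext <;> simp only [lie_c, lie_p, lie_q, add_c, add_p, add_q, map_add, map_sub,
      Derivation.leibniz, smul_eq_mul, Algebra.smul_def,
      Derivation.map_algebraMap, map_zero] <;> ring

instance : LieAlgebra k (RR k C d) where
  lie_smul c x y := by
    have hp : d (c • y.p) = c • d y.p := d.map_smul c y.p
    have hq : d (c • y.q) = c • d y.q := d.map_smul c y.q
    refine RR.ext ?_ ?_ ?_
    · simp
    · simp only [lie_p, smul_c, smul_p, hp]
      simp only [Algebra.smul_def, map_mul]; ring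
    · simp only [lie_q, smul_c, smul_p, smul_q, hq]
      simp only [Algebra.smul_def, map_mul]; ring

end RR

end Pool.Agent.H405R3.FP
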