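import Mathlib

set_option autoImplicit false

noncomputable section

universe u

namespace Pool.Agent.H405R3.FP

section quot

variable {k : Type u} [Field k] {L G : Type u} [LieRing L] [LieAlgebra k L] [LieRing G]
  [LieAlgebra k G]

/-- A Lie homomorphism that kills an ideal factors through the quotient. -/
def quotLift (I : LieIdeal k L) (f : L →ₗ⁅k⁆ G) (h : ∀ x ∈ I, f x = 0) : (L ⧸ I) →ₗ⁅k⁆ G :=
  { Submodule.liftQ I.toSubmodule (f : L →ₗ[k] G) (fun x hx => h x hx) with
    map_lie' := by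
      intro x y
      induction x using Submodule.Quotient.induction_on
      induction y using Submodule.Quotient.induction_on
      rename_i x y
      exact f.map_lie x y }

@[simp] lemma quotLift_mk (I : LieIdeal k L) (f : L →ₗ⁅k⁆ G) (h : ∀ x ∈ I, f x = 0) (x : L) :
    quotLift I f h (LieSubmodule.Quotient.mk x) = f x := rfl

/-- The quotient map as a homomorphism of Lie algebras. -/
def mkHom (I : LieIdeal k L) : L →ₗ⁅k⁆ (L ⧸ I) :=
  { Submodule.mkQ I.toSubmodule with
    map_lie' := by intro x y; rfl }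

@[simp] lemma mkHom_apply (I : LieIdeal k L) (x : L) :
    mkHom I x = LieSubmodule.Quotient.mk x := rfl

lemma quot_ext (I : LieIdeal k L) {f g : (L ⧸ I) →ₗ⁅k⁆ G}
    (h : f.comp (mkHom I) = g.comp (mkHom I)) : f = g := by
  ext x
  induction x using Submodule.Quotient.induction_on
  rename_i x
  exact LieHom.congr_fun h x

end quot

section main

variable (k : Type u) [Field k]

/-- The ideal generated by `[a, b] - b` in the free Lie algebra on four letters `a, b, x, y`. -/
def relIdeal : LieIdeal k (FreeLieAlgebra k (Fin 4)) :=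
  LieSubmodule.lieSpan k (FreeLieAlgebra k (Fin 4))
    {⁅FreeLieAlgebra.of k (0 : Fin 4), FreeLieAlgebra.of k (1 : Fin 4)⁆
      - FreeLieAlgebra.of k (1 : Fin 4)}

/-- The Lie algebra `⟨a, b, x, y | [a, b] = b⟩`. -/
abbrev LL : Type u := FreeLieAlgebra k (Fin 4) ⧸ relIdeal k

/-- The generators of `LL`. -/
def gen (i : Fin 4) : LL k := LieSubmodule.Quotient.mk (FreeLieAlgebra.of k i)

lemma gen_rel : ⁅gen k 0, gen k 1⁆ = gen k 1 := by
  have h : LieSubmodule.Quotient.mk (N := relIdeal k)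
      (⁅FreeLieAlgebra.of k (0 : Fin 4), FreeLieAlgebra.of k (1 : Fin 4)⁆
      - FreeLieAlgebra.of k (1 : Fin 4)) = 0 := by
    rw [LieSubmodule.Quotient.mk_eq_zero']
    exact LieSubmodule.subset_lieSpan rfl
  have h2 : (⁅gen k 0, gen k 1⁆ : LL k) - gen k 1 = 0 := h
  exact sub_eq_zero.1 h2

variable {k}
variable {G : Type u} [LieRing G] [LieAlgebra k G]

/-- The homomorphism out of `LL` given by the images of the generators. -/
def llift (α β ε₁ ε₂ : G) (h : ⁅α, β⁆ = β) : LL k →ₗ⁅k⁆ G :=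
  quotLift (relIdeal k) (FreeLieAlgebra.lift k ![α, β, ε₁, ε₂]) (by
    intro x hx
    have h1 : relIdeal k ≤ (FreeLieAlgebra.lift k ![α, β, ε₁, ε₂]).ker := by
      unfold relIdeal
      rw [LieSubmodule.lieSpan_le]
      rintro _ rfl
      simp [LieHom.mem_ker, h]
    exact LieHom.mem_ker.1 (h1 hx))

section
variable (α β ε₁ ε₂ : G) (h : ⁅α, β⁆ = β)
@[simp] lemma llift_0 : llift α β ε₁ ε₂ h (gen k 0) = α := by
  unfold llift gen; simp
@[simp] lemma llift_1 : llift α β ε₁ ε₂ h (gen k 1) = β := by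
  unfold llift gen; simp
@[simp] lemma llift_2 : llift α β ε₁ ε₂ h (gen k 2) = ε₁ := by
  unfold llift gen; simp
@[simp] lemma llift_3 : llift α β ε₁ ε₂ h (gen k 3) = ε₂ := by
  unfold llift gen; simp
end

lemma LL_ext {f g : LL k →ₗ⁅k⁆ G} (h0 : f (gen k 0) = g (gen k 0)) (h1 : f (gen k 1) = g (gen k 1))
    (h2 : f (gen k 2) = g (gen k 2)) (h3 : f (gen k 3) = g (gen k 3)) : f = g := by
  apply quot_ext
  apply FreeLieAlgebra.hom_ext
  intro i
  fin_cases i
  · exact h0
  · exact h1
  · exact h2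
  · exact h3

end main

end Pool.Agent.H405R3.FP
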