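import Mathlib

set_option autoImplicit false

noncomputable section

universe u

namespace Pool.Agent.H405R3.FP

variable {k : Type u} [Field k] {L : Type u} [LieRing L] [LieAlgebra k L]

/-- The family `B` of nonzero subalgebras is a free product decomposition of the subalgebra `A`. -/
def IsFP (A : LieSubalgebra k L) {ι : Type u} (B : ι → LieSubalgebra k L) : Prop :=
  (∀ j, B j ≠ ⊥) ∧ ∃ h : ∀ j, B j ≤ A,
    ∀ (M : Type u) [LieRing M] [LieAlgebra k M] (f : ∀ j, ↥(B j) →ₗ⁅k⁆ M),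
      ∃! g : ↥A →ₗ⁅k⁆ M, ∀ j, g.comp (LieSubalgebra.inclusion (h j)) = f j

variable {A : LieSubalgebra k L} {ι : Type u} {B : ι → LieSubalgebra k L}

lemma IsFP.le (H : IsFP A B) (j : ι) : B j ≤ A := H.2.choose j

lemma IsFP.exists_hom (H : IsFP A B) (M : Type u) [LieRing M] [LieAlgebra k M]
    (f : ∀ j, ↥(B j) →ₗ⁅k⁆ M) :
    ∃ g : ↥A →ₗ⁅k⁆ M, ∀ (j : ι) (v : L) (hv : v ∈ B j), g ⟨v, H.le j hv⟩ = f j ⟨v, hv⟩ := by
  obtain ⟨_, h, H2⟩ := H
  obtain ⟨g, hg, -⟩ := H2 M f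
  exact ⟨g, fun j v hv => LieHom.congr_fun (hg j) ⟨v, hv⟩⟩

lemma IsFP.hom_ext (H : IsFP A B) {M : Type u} [LieRing M] [LieAlgebra k M]
    {g g' : ↥A →ₗ⁅k⁆ M}
    (h : ∀ (j : ι) (v : L) (hv : v ∈ B j), g ⟨v, H.le j hv⟩ = g' ⟨v, H.le j hv⟩) : g = g' := by
  obtain ⟨_, h0, H2⟩ := H
  obtain ⟨g₀, _, hu⟩ := H2 M (fun j => g.comp (LieSubalgebra.inclusion (h0 j)))
  rw [hu g (fun j => rfl), hu g' (fun j => by
    ext ⟨v, hv⟩
    exact (h j v hv).symm)]

lemma IsFP.nonempty (H : IsFP A B) (hA : A ≠ ⊥) : Nonempty ι := by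
  by_contra hne
  apply hA
  have h1 : (LieHom.id : ↥A →ₗ⁅k⁆ ↥A) = 0 := H.hom_ext (fun j => (hne ⟨j⟩).elim)
  rw [LieSubalgebra.eq_bot_iff]
  intro x hx
  have h2 := LieHom.congr_fun h1 ⟨x, hx⟩
  exact congrArg Subtype.val h2

lemma IsFP.disjoint (H : IsFP A B) {j j' : ι} (hj : j ≠ j') {v : L} (hv : v ∈ B j)
    (hv' : v ∈ B j') : v = 0 := by
  classical
  obtain ⟨g, hg⟩ := H.exists_hom (↥(B j)) (fun i => if h : i = j then
    LieSubalgebra.inclusion (le_of_eq (congrArg B h)) else 0)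
  have h1 := hg j v hv
  have h2 := hg j' v hv'
  rw [dif_pos rfl] at h1
  rw [dif_neg (Ne.symm hj)] at h2
  have h3 : (LieSubalgebra.inclusion (le_refl (B j))) ⟨v, hv⟩ = 0 := by
    rw [← h1]; exact h2
  exact congrArg Subtype.val h3

lemma IsFP.eq_of_unique (H : IsFP A B) {j : ι} (hj : ∀ i, i = j) : B j = A := by
  classical
  obtain ⟨g, hg⟩ := H.exists_hom (↥(B j)) (fun i =>
    LieSubalgebra.inclusion (le_of_eq (congrArg B (hj i))))
  have h1 : (LieSubalgebra.inclusion (H.le j)).comp g = LieHom.id := by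
    apply H.hom_ext
    intro i v hv
    obtain rfl := hj i
    simp only [LieHom.comp_apply]
    rw [hg i v hv]
    rfl
  apply le_antisymm (H.le j)
  intro x hx
  have h2 := LieHom.congr_fun h1 ⟨x, hx⟩
  have h3 := congrArg Subtype.val h2
  simp only [LieHom.comp_apply, LieSubalgebra.coe_inclusion, LieHom.coe_id, id] at h3
  rw [← h3]
  exact (g ⟨x, hx⟩).2

/-- two homomorphisms out of a subalgebra agree if they agree on generators -/
lemma hom_ext_lieSpan {s : Set L} {M : Type u} [LieRing M] [LieAlgebra k M]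
    {g g' : ↥(LieSubalgebra.lieSpan k L s) →ₗ⁅k⁆ M}
    (h : ∀ (v : L) (hv : v ∈ s), g ⟨v, LieSubalgebra.subset_lieSpan hv⟩
      = g' ⟨v, LieSubalgebra.subset_lieSpan hv⟩) : g = g' := by
  ext ⟨x, hx⟩
  induction hx using LieSubalgebra.lieSpan_induction with
  | mem x hx => exact h x hx
  | zero => exact (map_zero g).trans (map_zero g').symm
  | smul r x hx ih =>
    have e : (⟨r • x, LieSubalgebra.smul_mem _ r hx⟩ : ↥(LieSubalgebra.lieSpan k L s))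
      = r • ⟨x, hx⟩ := rfl
    rw [e, map_smul, map_smul, ih]
  | add x y hx hy ihx ihy =>
    have e : (⟨x + y, LieSubalgebra.add_mem _ hx hy⟩ : ↥(LieSubalgebra.lieSpan k L s))
      = ⟨x, hx⟩ + ⟨y, hy⟩ := rfl
    rw [e, map_add, map_add, ihx, ihy]
  | lie x y hx hy ihx ihy =>
    have e : (⟨⁅x, y⁆, LieSubalgebra.lie_mem _ hx hy⟩ : ↥(LieSubalgebra.lieSpan k L s))
      = ⁅(⟨x, hx⟩ : ↥(LieSubalgebra.lieSpan k L s)), (⟨y, hy⟩ : ↥(LieSubalgebra.lieSpan k L s))⁆ := rfl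
    rw [e, LieHom.map_lie, LieHom.map_lie, ihx, ihy]

end Pool.Agent.H405R3.FP
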