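import Mathlib

set_option autoImplicit false

noncomputable section

universe u

open Polynomial

namespace Pool.Agent.H405R3.FP

variable {k : Type u} [Field k]

/-- `b ∂/∂b` on the coefficients. -/
def dl (u : k[X][X]) : k[X][X] := ∑ n ∈ u.support, monomial n (X * derivative (u.coeff n))

lemma coeff_dl (u : k[X][X]) (n : ℕ) : (dl u).coeff n = X * derivative (u.coeff n) := by
  unfold dl
  rw [finsetSum_coeff]
  simp only [coeff_monomial]
  rw [Finset.sum_ite_eq']
  split_ifs with h
  · rfl
  · rw [notMem_support_iff.1 h]; simp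

/-- the operator of `a` on `k[b][t]` -/
def opA : k[X][X] →ₗ[k] k[X][X] where
  toFun u := X * u + dl u
  map_add' u v := by
    have h : dl (u + v) = dl u + dl v := by
      ext1 n; simp only [coeff_dl, coeff_add, derivative_add, mul_add]
    rw [h]; ring
  map_smul' c u := by
    have h : dl (c • u) = c • dl u := by
      ext1 n; simp only [coeff_dl, coeff_smul, derivative_smul, mul_smul_comm]
    simp only [h, RingHom.id_apply, smul_add, mul_smul_comm]

/-- the operator of `b` on `k[b][t]` -/
def opB : k[X][X] →ₗ[k] k[X][X] where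
  toFun u := C X * u
  map_add' u v := by ring
  map_smul' c u := by simp

lemma opA_apply (u : k[X][X]) : opA u = X * u + dl u := rfl
lemma opB_apply (u : k[X][X]) : opB u = C X * u := rfl

lemma opAB (u : k[X][X]) : opA (opB u) - opB (opA u) = opB u := by
  have h : dl (C X * u) = C X * dl u + C X * u := by
    ext1 n
    simp only [coeff_dl, coeff_add, coeff_C_mul, derivative_mul, derivative_X]
    ring
  simp only [opA_apply, opB_apply, h]
  ring

/-- The projective module `P`. -/
def modP : Submodule k k[X][X] where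
  carrier := {u | u.coeff 0 + X * eval 1 u = 0}
  add_mem' := by
    intro u v hu hv
    simp only [Set.mem_ofPred_eq] at *
    simp only [coeff_add, eval_add]
    linear_combination hu + hv
  zero_mem' := by simp
  smul_mem' := by
    intro c u hu
    simp only [Set.mem_ofPred_eq] at *
    simp only [coeff_smul, eval_smul, mul_smul_comm, ← smul_add, hu, smul_zero]

lemma mem_modP {u : k[X][X]} : u ∈ (modP : Submodule k k[X][X]) ↔ u.coeff 0 + X * eval 1 u = 0 :=
  Iff.rfl

lemma eval_dl (u : k[X][X]) : eval 1 (dl u) = X * derivative (eval 1 u) := by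
  have h : eval 1 u = ∑ n ∈ u.support, u.coeff n := by
    rw [eval_eq_sum, sum_def]; simp
  rw [h]
  unfold dl
  rw [eval_finsetSum]
  simp only [eval_monomial, one_pow, mul_one, derivative_sum, Finset.mul_sum]

lemma opA_mem {u : k[X][X]} (hu : u ∈ (modP : Submodule k k[X][X])) : opA u ∈ (modP : Submodule k k[X][X]) := by
  rw [mem_modP] at *
  have h2 := congrArg derivative hu
  simp only [derivative_add, derivative_mul, derivative_X, derivative_zero] at h2
  simp only [opA_apply, coeff_add, coeff_dl, coeff_X_mul_zero, eval_add, eval_mul, eval_X, eval_dl]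
  linear_combination X * h2

lemma opB_mem {u : k[X][X]} (hu : u ∈ (modP : Submodule k k[X][X])) : opB u ∈ (modP : Submodule k k[X][X]) := by
  rw [mem_modP] at *
  simp only [opB_apply, coeff_C_mul, eval_mul, eval_C]
  linear_combination X * hu

/-- first generator `(1 + b) t - b` -/
def wP : k[X][X] := C (1 + X) * X - C X
/-- second generator `t (t - 1)` -/
def vP : k[X][X] := X ^ 2 - X

lemma wP_mem : (wP : k[X][X]) ∈ (modP : Submodule k k[X][X]) := by
  rw [mem_modP]; unfold wP; simp

lemma vP_mem : (vP : k[X][X]) ∈ (modP : Submodule k k[X][X]) := by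
  rw [mem_modP]; unfold vP; simp

lemma wv_rel : (wP : k[X][X]) - opA wP + (vP + opB vP) = 0 := by
  have h : dl (wP : k[X][X]) = C X * X - C X := by
    ext1 n
    rw [coeff_dl]
    unfold wP
    rcases n with _ | _ | n
    · simp
    · simp [coeff_C]
    · simp [coeff_one]
  rw [opA_apply, h, opB_apply]
  unfold wP vP
  simp only [C_add, C_1]
  ring

/-! ### non-cyclicity -/

lemma natDegree_dl_le (u : k[X][X]) : (dl u).natDegree ≤ u.natDegree := by
  rw [natDegree_le_iff_coeff_eq_zero]
  intro n hn
  rw [coeff_dl, coeff_eq_zero_of_natDegree_lt hn]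
  simp

lemma opA_coeff_succ (u : k[X][X]) : (opA u).coeff (u.natDegree + 1) = u.leadingCoeff := by
  rw [opA_apply, coeff_add, coeff_X_mul, coeff_dl, coeff_eq_zero_of_natDegree_lt (Nat.lt_succ_self _)]
  simp

lemma opA_natDegree {u : k[X][X]} (hu : u ≠ 0) : (opA u).natDegree = u.natDegree + 1 := by
  apply natDegree_eq_of_le_of_coeff_ne_zero
  · rw [opA_apply]
    refine (natDegree_add_le _ _).trans (max_le ?_ ?_)
    · rw [natDegree_X_mul hu]
    · exact (natDegree_dl_le u).trans (Nat.le_succ _)
  · rw [opA_coeff_succ]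
    exact leadingCoeff_ne_zero.2 hu

lemma opA_leadingCoeff {u : k[X][X]} (hu : u ≠ 0) : (opA u).leadingCoeff = u.leadingCoeff := by
  rw [leadingCoeff, opA_natDegree hu, opA_coeff_succ]

lemma opA_pow {u : k[X][X]} (hu : u ≠ 0) (n : ℕ) :
    (opA ^ n) u ≠ 0 ∧ ((opA ^ n) u).natDegree = u.natDegree + n ∧
      ((opA ^ n) u).leadingCoeff = u.leadingCoeff := by
  induction n with
  | zero => simpa using hu
  | succ n ih =>
    have e : (opA ^ (n + 1)) u = opA ((opA ^ n) u) := by
      rw [pow_succ']; rfl
    rw [e]
    have h1 := opA_natDegree ih.1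
    have h2 := opA_leadingCoeff ih.1
    refine ⟨?_, ?_, ?_⟩
    · intro h0
      rw [h0] at h2
      rw [leadingCoeff_zero] at h2
      exact ih.1 (leadingCoeff_eq_zero.1 h2.symm)
    · rw [h1, ih.2.1]; ring
    · rw [h2, ih.2.2]

/-- `E c = ∑ c_j A^j u` -/
def evE (u : k[X][X]) (c : k[X][X]) : k[X][X] := c.sum (fun n f => C f * (opA ^ n) u)

lemma evE_add (u c c' : k[X][X]) : evE u (c + c') = evE u c + evE u c' := by
  unfold evE
  apply sum_add_index
  · intro i; simp
  · intro n f g; rw [C_add, add_mul]

lemma evE_monomial (u : k[X][X]) (n : ℕ) (f : k[X]) :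
    evE u (monomial n f) = C f * (opA ^ n) u := by
  unfold evE
  rw [sum_monomial_index]
  simp

lemma evE_opB (u c : k[X][X]) : evE u (opB c) = opB (evE u c) := by
  induction c using Polynomial.induction_on' with
  | add p q hp hq => rw [map_add, evE_add, evE_add, hp, hq, map_add]
  | monomial n f =>
    rw [opB_apply, C_mul_monomial, evE_monomial, evE_monomial, opB_apply, C_mul, mul_assoc]

lemma evE_opA (u c : k[X][X]) : evE u (opA c) = opA (evE u c) := by
  induction c using Polynomial.induction_on' with
  | add p q hp hq => rw [map_add, evE_add, evE_add, hp, hq, map_add]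
  | monomial n f =>
    have h1 : dl (monomial n f : k[X][X]) = monomial n (X * derivative f) := by
      ext1 m
      rw [coeff_dl, coeff_monomial, coeff_monomial]
      split_ifs <;> simp
    have h2 : ∀ v : k[X][X], dl (C f * v) = C f * dl v + C (X * derivative f) * v := by
      intro v
      ext1 m
      simp only [coeff_dl, coeff_add, coeff_C_mul, derivative_mul]
      ring
    rw [opA_apply, h1, X_mul_monomial, evE_add, evE_monomial, evE_monomial, evE_monomial, opA_apply,
      h2, pow_succ']
    change C f * (opA ((opA ^ n) u)) + _ = _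
    rw [opA_apply]
    ring

lemma evE_one (u : k[X][X]) : evE u 1 = u := by
  have : (1 : k[X][X]) = monomial 0 1 := rfl
  rw [this, evE_monomial]
  simp

lemma evE_coeff {u : k[X][X]} (hu : u ≠ 0) (c : k[X][X]) :
    (evE u c).natDegree ≤ u.natDegree + c.natDegree ∧
    (evE u c).coeff (u.natDegree + c.natDegree) = c.leadingCoeff * u.leadingCoeff := by
  unfold evE
  rw [sum_def]
  constructor
  · apply natDegree_sum_le_of_forall_le
    intro n hn
    refine (natDegree_C_mul_le _ _).trans ?_
    rw [(opA_pow hu n).2.1]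
    exact Nat.add_le_add_left (le_natDegree_of_mem_supp n hn) _
  · rw [finsetSum_coeff]
    by_cases hc : c = 0
    · simp [hc]
    rw [Finset.sum_eq_single c.natDegree]
    · rw [coeff_C_mul, ← (opA_pow hu c.natDegree).2.1]
      change c.leadingCoeff * ((opA ^ c.natDegree) u).leadingCoeff = _
      rw [(opA_pow hu _).2.2]
    · intro n hn hne
      have h0 : ((opA ^ n) u).coeff (u.natDegree + c.natDegree) = 0 := by
        apply coeff_eq_zero_of_natDegree_lt
        rw [(opA_pow hu n).2.1]
        exact Nat.add_lt_add_left (lt_of_le_of_ne (le_natDegree_of_mem_supp n hn) hne) _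
      rw [coeff_C_mul, h0, mul_zero]
    · intro h
      rw [notMem_support_iff.1 h]
      simp

lemma evE_nat {u : k[X][X]} (hu : u ≠ 0) {c : k[X][X]} (hc : c ≠ 0) :
    (evE u c).natDegree = u.natDegree + c.natDegree ∧
    (evE u c).leadingCoeff = c.leadingCoeff * u.leadingCoeff := by
  obtain ⟨h1, h2⟩ := evE_coeff hu c
  have h3 : (evE u c).natDegree = u.natDegree + c.natDegree := by
    apply natDegree_eq_of_le_of_coeff_ne_zero h1
    rw [h2]
    exact mul_ne_zero (leadingCoeff_ne_zero.2 hc) (leadingCoeff_ne_zero.2 hu)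
  exact ⟨h3, by rw [leadingCoeff, h3, h2]⟩

/-- the submodule generated by `u` -/
def cyc (u : k[X][X]) : Submodule k k[X][X] where
  carrier := Set.range (evE u)
  add_mem' := by
    rintro _ _ ⟨c, rfl⟩ ⟨c', rfl⟩
    exact ⟨c + c', evE_add u c c'⟩
  zero_mem' := ⟨0, by unfold evE; simp⟩
  smul_mem' := by
    rintro r _ ⟨c, rfl⟩
    refine ⟨r • c, ?_⟩
    induction c using Polynomial.induction_on' with
    | add p q hp hq => rw [smul_add, evE_add, evE_add, hp, hq, smul_add]
    | monomial n f =>
      rw [smul_monomial, evE_monomial, evE_monomial, ← smul_C, smul_mul_assoc]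

lemma mem_cyc_self (u : k[X][X]) : u ∈ cyc u := ⟨1, evE_one u⟩
lemma opA_cyc {u v : k[X][X]} (h : v ∈ cyc u) : opA v ∈ cyc u := by
  obtain ⟨c, rfl⟩ := h
  exact ⟨opA c, evE_opA u c⟩
lemma opB_cyc {u v : k[X][X]} (h : v ∈ cyc u) : opB v ∈ cyc u := by
  obtain ⟨c, rfl⟩ := h
  exact ⟨opB c, evE_opB u c⟩

lemma one_add_X_not_unit : ¬ IsUnit (1 + X : k[X]) := by
  rw [isUnit_iff_degree_eq_zero]
  have : (1 + X : k[X]) = X + C 1 := by simp [add_comm]
  rw [this, degree_X_add_C]
  norm_num

lemma not_cyclic {u : k[X][X]} (hu : u ∈ (modP : Submodule k k[X][X])) (hw : (wP : k[X][X]) ∈ cyc u)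
    (hv : (vP : k[X][X]) ∈ cyc u) : False := by
  have hw1 : (wP : k[X][X]).natDegree = 1 := by
    unfold wP
    have : (C (1 + X) * X - C X : k[X][X]) = C (1 + X) * X + C (-X) := by
      rw [C_neg]; ring
    rw [this]
    apply natDegree_linear
    intro h
    exact one_add_X_not_unit (k := k) (by
      have h2 := congrArg (Polynomial.eval 0) h
      simp at h2)
  have hw0 : (wP : k[X][X]) ≠ 0 := by
    intro h; rw [h] at hw1; simp at hw1
  have hv1 : (vP : k[X][X]).leadingCoeff = 1 := by
    have : (vP : k[X][X]).Monic := by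
      unfold vP
      apply monic_X_pow_sub
      rw [degree_X]; norm_num
    exact this
  have hv0 : (vP : k[X][X]) ≠ 0 := by
    intro h; rw [h] at hv1; simp at hv1
  obtain ⟨c, hc⟩ := hw
  obtain ⟨c', hc'⟩ := hv
  have hu0 : u ≠ 0 := by
    rintro rfl
    apply hw0
    rw [← hc]
    unfold evE
    rw [sum_def]
    simp
  have hc0 : c ≠ 0 := by
    rintro rfl
    apply hw0
    rw [← hc]
    unfold evE
    simp
  have hc0' : c' ≠ 0 := by
    rintro rfl
    apply hv0
    rw [← hc']
    unfold evE
    simp
  have h1 := (evE_nat hu0 hc0).1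
  rw [hc, hw1] at h1
  have h2 := (evE_nat hu0 hc0').2
  rw [hc', hv1] at h2
  have hdeg : u.natDegree ≤ 1 := by omega
  rw [mem_modP] at hu
  obtain ⟨p, q, rfl⟩ := exists_eq_X_add_C_of_natDegree_le_one hdeg
  simp only [coeff_add, coeff_C_mul, coeff_C_zero, eval_add, eval_mul, eval_C, eval_X, mul_one,
    coeff_X_zero, mul_zero, zero_add] at hu
  -- hu : q + X * (p + q) = 0
  by_cases hp : p = 0
  · subst hp
    have hq : (1 + X) * q = 0 := by linear_combination hu
    rcases mul_eq_zero.1 hq with h | h
    · exact one_add_X_not_unit (k := k) (by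
        have h2 := congrArg (Polynomial.eval 0) h
        simp at h2)
    · apply hu0
      rw [h]; simp
  · rw [leadingCoeff_linear hp] at h2
    have h3 : (1 + X) * (p + q) = p := by linear_combination hu
    apply one_add_X_not_unit (k := k)
    apply IsUnit.of_mul_eq_one (c'.leadingCoeff * (p + q))
    linear_combination c'.leadingCoeff * h3 - h2

end Pool.Agent.H405R3.FP
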