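import Pool.Agent.H405R3.FPDet
import Pool.Agent.H405R3.FPGen
import Pool.Agent.H405R3.FPMod

set_option autoImplicit false

noncomputable section

universe u

open Polynomial

namespace Pool.Agent.H405R3.FP

variable {k : Type u} [Field k]

/-! ### the elements `zeta, e1, e2` -/

variable (k) in
/-- `zeta = x - [a, x] + y + [b, y]` -/
def zeta : LL k := gen k 2 - ⁅gen k 0, gen k 2⁆ + gen k 3 + ⁅gen k 1, gen k 3⁆
variable (k) in
/-- `e1 = x - zeta - [b, zeta]` -/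
def e1 : LL k := gen k 2 - zeta k - ⁅gen k 1, zeta k⁆
variable (k) in
/-- `e2 = y - [a, zeta]` -/
def e2 : LL k := gen k 3 - ⁅gen k 0, zeta k⁆

lemma e_rel : e1 k - ⁅gen k 0, e1 k⁆ + e2 k + ⁅gen k 1, e2 k⁆ = 0 := by
  have h1 : ⁅gen k 0, ⁅gen k 1, zeta k⁆⁆ = ⁅gen k 1, zeta k⁆ + ⁅gen k 1, ⁅gen k 0, zeta k⁆⁆ := by
    rw [leibniz_lie, gen_rel]
  have h2 : zeta k = gen k 2 - ⁅gen k 0, gen k 2⁆ + gen k 3 + ⁅gen k 1, gen k 3⁆ := rfl
  have h3 : e1 k - ⁅gen k 0, e1 k⁆ + e2 k + ⁅gen k 1, e2 k⁆ =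
      (gen k 2 - ⁅gen k 0, gen k 2⁆ + gen k 3 + ⁅gen k 1, gen k 3⁆) - zeta k
      + (⁅gen k 0, ⁅gen k 1, zeta k⁆⁆ - ⁅gen k 1, zeta k⁆ - ⁅gen k 1, ⁅gen k 0, zeta k⁆⁆) := by
    unfold e1 e2
    simp only [lie_sub]
    abel
  rw [h3, ← h2, h1]
  abel

lemma x_eq : gen k 2 = e1 k + zeta k + ⁅gen k 1, zeta k⁆ := by unfold e1; abel
lemma y_eq : gen k 3 = e2 k + ⁅gen k 0, zeta k⁆ := by unfold e2; abel

section
variable {G : Type u} [LieRing G] [LieAlgebra k G] (f : LL k →ₗ⁅k⁆ G)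

lemma map_zeta : f (zeta k) = f (gen k 2) - ⁅f (gen k 0), f (gen k 2)⁆ + f (gen k 3)
    + ⁅f (gen k 1), f (gen k 3)⁆ := by
  unfold zeta; simp
lemma map_e1 : f (e1 k) = f (gen k 2) - f (zeta k) - ⁅f (gen k 1), f (zeta k)⁆ := by
  unfold e1; simp
lemma map_e2 : f (e2 k) = f (gen k 3) - ⁅f (gen k 0), f (zeta k)⁆ := by
  unfold e2; simp
end

variable (k) in
/-- The subalgebra `Q`. -/
def QQ : LieSubalgebra k (LL k) := LieSubalgebra.lieSpan k (LL k) {gen k 0, gen k 1, e1 k, e2 k}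

lemma a_mem : gen k 0 ∈ QQ k := LieSubalgebra.subset_lieSpan (by simp)
lemma b_mem : gen k 1 ∈ QQ k := LieSubalgebra.subset_lieSpan (by simp)
lemma e1_mem : e1 k ∈ QQ k := LieSubalgebra.subset_lieSpan (by simp)
lemma e2_mem : e2 k ∈ QQ k := LieSubalgebra.subset_lieSpan (by simp)

lemma QQ_ext {G : Type u} [LieRing G] [LieAlgebra k G] {f g : ↥(QQ k) →ₗ⁅k⁆ G}
    (h0 : f ⟨_, a_mem⟩ = g ⟨_, a_mem⟩) (h1 : f ⟨_, b_mem⟩ = g ⟨_, b_mem⟩)
    (h2 : f ⟨_, e1_mem⟩ = g ⟨_, e1_mem⟩) (h3 : f ⟨_, e2_mem⟩ = g ⟨_, e2_mem⟩) : f = g := by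
  apply hom_ext_lieSpan
  intro v hv
  simp only [Set.mem_insert_iff, Set.mem_singleton_iff] at hv
  rcases hv with rfl | rfl | rfl | rfl
  · exact h0
  · exact h1
  · exact h2
  · exact h3

/-- every homomorphism `LL → G` maps `QQ` into a subalgebra containing the images of the four
generators -/
lemma QQ_map_mem {G : Type u} [LieRing G] [LieAlgebra k G] (f : LL k →ₗ⁅k⁆ G)
    (K : LieSubalgebra k G) (h0 : f (gen k 0) ∈ K) (h1 : f (gen k 1) ∈ K) (h2 : f (e1 k) ∈ K)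
    (h3 : f (e2 k) ∈ K) {z : LL k} (hz : z ∈ QQ k) : f z ∈ K := by
  have h : QQ k ≤ K.comap f := by
    unfold QQ
    rw [LieSubalgebra.lieSpan_le]
    intro v hv
    simp only [Set.mem_insert_iff, Set.mem_singleton_iff] at hv
    rcases hv with rfl | rfl | rfl | rfl
    · exact h0
    · exact h1
    · exact h2
    · exact h3
  exact h hz

/-! ### the representation on `P` -/

/-- The semidirect product with `k[b][t]`. -/
abbrev GM (k : Type u) [Field k] : Type u := SD k k[X][X] opA opB opAB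

variable (k) in
/-- The homomorphism with `x ↦ (1+b)t - b`, `y ↦ t(t-1)`. -/
def qM : LL k →ₗ⁅k⁆ GM k :=
  llift ⟨1, 0, 0⟩ ⟨0, 1, 0⟩ ⟨0, 0, wP⟩ ⟨0, 0, vP⟩ (by ext1 <;> simp)

@[simp] lemma qM_0 : qM k (gen k 0) = ⟨1, 0, 0⟩ := by simp [qM]
@[simp] lemma qM_1 : qM k (gen k 1) = ⟨0, 1, 0⟩ := by simp [qM]
@[simp] lemma qM_2 : qM k (gen k 2) = ⟨0, 0, wP⟩ := by simp [qM]
@[simp] lemma qM_3 : qM k (gen k 3) = ⟨0, 0, vP⟩ := by simp [qM]

@[simp] lemma qM_zeta : qM k (zeta k) = 0 := by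
  rw [map_zeta]
  simp only [qM_0, qM_1, qM_2, qM_3]
  refine SD.ext (by simp) (by simp) ?_
  simp only [SD.add_m, SD.sub_m, SD.lie_m, SD.zero_m]
  have := wv_rel (k := k)
  simp only [one_smul, zero_smul, add_zero, zero_add, sub_zero]
  rw [← this]
  abel

@[simp] lemma qM_e1 : qM k (e1 k) = ⟨0, 0, wP⟩ := by rw [map_e1]; simp
@[simp] lemma qM_e2 : qM k (e2 k) = ⟨0, 0, vP⟩ := by rw [map_e2]; simp

/-- the first two coordinates of `qM` are `pr` -/
lemma qM_pr (z : LL k) : (qM k z).s = (pr k z).s ∧ (qM k z).r = (pr k z).r := by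
  let f : GM k →ₗ⁅k⁆ G2 k :=
    { toFun := fun x => ⟨x.s, x.r, PUnit.unit⟩
      map_add' := fun x y => by ext <;> simp
      map_smul' := fun c x => by ext <;> simp
      map_lie' := fun {x y} => by ext <;> simp }
  have h : f.comp (qM k) = pr k := by
    apply LL_ext
    · simp only [LieHom.comp_apply, qM_0, pr, llift_0]; rfl
    · simp only [LieHom.comp_apply, qM_1, pr, llift_1]; rfl
    · simp only [LieHom.comp_apply, qM_2, pr, llift_2]; rfl
    · simp only [LieHom.comp_apply, qM_3, pr, llift_3]; rfl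
  have h2 := LieHom.congr_fun h z
  exact ⟨congrArg SD.s h2, congrArg SD.r h2⟩

/-- `{(s, r, m) : m ∈ P}` -/
def KP (k : Type u) [Field k] : LieSubalgebra k (GM k) where
  carrier := {x | x.m ∈ (modP : Submodule k k[X][X])}
  add_mem' := by
    intro x y hx hy
    have hx' : x.m ∈ (modP : Submodule k k[X][X]) := hx
    have hy' : y.m ∈ (modP : Submodule k k[X][X]) := hy
    change x.m + y.m ∈ (modP : Submodule k k[X][X])
    exact Submodule.add_mem _ hx' hy'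
  zero_mem' := by
    change (0 : k[X][X]) ∈ (modP : Submodule k k[X][X])
    exact Submodule.zero_mem _
  smul_mem' := by
    intro c x hx
    have hx' : x.m ∈ (modP : Submodule k k[X][X]) := hx
    change c • x.m ∈ (modP : Submodule k k[X][X])
    exact Submodule.smul_mem _ c hx'
  lie_mem' := by
    intro x y hx hy
    have hx' : x.m ∈ (modP : Submodule k k[X][X]) := hx
    have hy' : y.m ∈ (modP : Submodule k k[X][X]) := hy
    change (x.s • opA y.m + x.r • opB y.m) - (y.s • opA x.m + y.r • opB x.m)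
      ∈ (modP : Submodule k k[X][X])
    exact Submodule.sub_mem _
      (Submodule.add_mem _ (Submodule.smul_mem _ _ (opA_mem hy'))
        (Submodule.smul_mem _ _ (opB_mem hy')))
      (Submodule.add_mem _ (Submodule.smul_mem _ _ (opA_mem hx'))
        (Submodule.smul_mem _ _ (opB_mem hx')))

lemma qM_mem {z : LL k} (hz : z ∈ QQ k) : (qM k z).m ∈ (modP : Submodule k k[X][X]) := by
  have h : qM k z ∈ KP k := by
    apply QQ_map_mem (qM k) (KP k) _ _ _ _ hz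
    · rw [qM_0]
      change (0 : k[X][X]) ∈ (modP : Submodule k k[X][X])
      exact Submodule.zero_mem _
    · rw [qM_1]
      change (0 : k[X][X]) ∈ (modP : Submodule k k[X][X])
      exact Submodule.zero_mem _
    · rw [qM_e1]; exact wP_mem
    · rw [qM_e2]; exact vP_mem
  exact h

/-- Given `u = a + γ b + m₁`, `v = β b + m₂` with `[u, v] = v`, the set of all
`s u + r v + p`, with `p` in the cyclic module of `p₀`, is a subalgebra. -/
def KC (u v : GM k) (huv : ⁅u, v⁆ = v) (p₀ : k[X][X]) : LieSubalgebra k (GM k) where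
  carrier := {x | ∃ s r : k, ∃ p ∈ cyc p₀, x = s • u + r • v + ⟨0, 0, p⟩}
  add_mem' := by
    rintro x y ⟨s, r, p, hp, rfl⟩ ⟨s', r', p', hp', rfl⟩
    refine ⟨s + s', r + r', p + p', Submodule.add_mem _ hp hp', ?_⟩
    have : (⟨0, 0, p + p'⟩ : GM k) = ⟨0, 0, p⟩ + ⟨0, 0, p'⟩ := by ext1 <;> simp
    rw [this]
    module
  zero_mem' := ⟨0, 0, 0, Submodule.zero_mem _, by ext1 <;> simp⟩
  smul_mem' := by
    rintro c x ⟨s, r, p, hp, rfl⟩
    refine ⟨c * s, c * r, c • p, Submodule.smul_mem _ _ hp, ?_⟩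
    have : (⟨0, 0, c • p⟩ : GM k) = c • ⟨0, 0, p⟩ := by ext1 <;> simp
    rw [this]
    module
  lie_mem' := by
    rintro x y ⟨s, r, p, hp, rfl⟩ ⟨s', r', p', hp', rfl⟩
    have hl : ∀ (z : GM k) (p : k[X][X]), ⁅z, (⟨0, 0, p⟩ : GM k)⁆ =
        ⟨0, 0, z.s • opA p + z.r • opB p⟩ := by
      intro z p
      ext1 <;> simp
    have hl' : ∀ (z : GM k) (p : k[X][X]), ⁅(⟨0, 0, p⟩ : GM k), z⁆ =
        ⟨0, 0, -(z.s • opA p + z.r • opB p)⟩ := by
      intro z p
      ext1 <;> simp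
    have hm : ∀ (z : GM k) {p : k[X][X]}, p ∈ cyc p₀ → z.s • opA p + z.r • opB p ∈ cyc p₀ := by
      intro z p hp
      exact Submodule.add_mem _ (Submodule.smul_mem _ _ (opA_cyc hp))
        (Submodule.smul_mem _ _ (opB_cyc hp))
    refine ⟨0, s * r' - s' * r, ((s • u + r • v).s • opA p' + (s • u + r • v).r • opB p')
      - ((s' • u + r' • v).s • opA p + (s' • u + r' • v).r • opB p),
      Submodule.sub_mem _ (hm _ hp') (hm _ hp), ?_⟩
    have hpp : ⁅(⟨0, 0, p⟩ : GM k), (⟨0, 0, p'⟩ : GM k)⁆ = 0 := by rw [hl]; ext1 <;> simp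
    have hsplit : ∀ p q : k[X][X], (⟨0, 0, p - q⟩ : GM k) = ⟨0, 0, p⟩ + ⟨0, 0, -q⟩ := by
      intro p q; ext1 <;> simp [sub_eq_add_neg]
    rw [hsplit, ← hl, ← hl']
    have hvu : ⁅v, u⁆ = -v := by rw [← lie_skew, huv]
    rw [lie_add, add_lie _ _ (s' • u + r' • v), add_lie _ _ (⟨0, 0, p'⟩ : GM k), hpp, add_zero]
    have h3 : ⁅s • u + r • v, s' • u + r' • v⁆ = (s * r' - s' * r) • v := by
      simp only [lie_add, add_lie, lie_smul, smul_lie, lie_self, huv, hvu, smul_zero]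
      module
    rw [h3]
    module

end Pool.Agent.H405R3.FP
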