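import Pool.Agent.H405R3.FPKey

set_option autoImplicit false

noncomputable section

universe u

namespace Pool.Agent.H405R3.FP

variable {k : Type u} [Field k]

/-! ### one generated subalgebras -/

section one
variable {L : Type u} [LieRing L] [LieAlgebra k L]

lemma mem_span_one {v z : L} (hz : z ∈ LieSubalgebra.lieSpan k L {v}) : ∃ c : k, z = c • v := by
  induction hz using LieSubalgebra.lieSpan_induction with
  | mem x hx => exact ⟨1, by rw [one_smul]; exact hx⟩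
  | zero => exact ⟨0, by rw [zero_smul]⟩
  | smul r x hx ih => obtain ⟨c, rfl⟩ := ih; exact ⟨r * c, by rw [mul_smul]⟩
  | add x y hx hy ihx ihy =>
    obtain ⟨c, rfl⟩ := ihx
    obtain ⟨d, rfl⟩ := ihy
    exact ⟨c + d, by rw [add_smul]⟩
  | lie x y hx hy ihx ihy =>
    obtain ⟨c, rfl⟩ := ihx
    obtain ⟨d, rfl⟩ := ihy
    exact ⟨0, by simp⟩

lemma mem_one_self (v : L) : v ∈ LieSubalgebra.lieSpan k L {v} :=
  LieSubalgebra.subset_lieSpan rfl

lemma exists_ne_zero {B : LieSubalgebra k L} (h : B ≠ ⊥) : ∃ w ∈ B, w ≠ 0 := by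
  by_contra hne
  push Not at hne
  exact h ((LieSubalgebra.eq_bot_iff B).2 hne)

lemma one_unique {v : L} (hv : v ≠ 0) {ι : Type u} {B : ι → LieSubalgebra k L}
    (H : IsFP (LieSubalgebra.lieSpan k L {v}) B) (j j' : ι) : j = j' := by
  by_contra hne
  have key : ∀ i, v ∈ B i := by
    intro i
    obtain ⟨w, hw, hw0⟩ := exists_ne_zero (H.1 i)
    obtain ⟨c, rfl⟩ := mem_span_one (H.le i hw)
    have hc : c ≠ 0 := by rintro rfl; simp at hw0
    have := (B i).smul_mem c⁻¹ hw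
    rwa [smul_smul, inv_mul_cancel₀ hc, one_smul] at this
  exact hv (H.disjoint hne (key j) (key j'))

end one

/-! ### the two dimensional subalgebra -/

variable (k) in
/-- the subalgebra generated by `a, b` -/
def S0 : LieSubalgebra k (LL k) := LieSubalgebra.lieSpan k (LL k) {gen k 0, gen k 1}

lemma S0_a : gen k 0 ∈ S0 k := LieSubalgebra.subset_lieSpan (by simp)
lemma S0_b : gen k 1 ∈ S0 k := LieSubalgebra.subset_lieSpan (by simp)

lemma mem_S0 {z : LL k} (hz : z ∈ S0 k) : ∃ s r : k, z = s • gen k 0 + r • gen k 1 := by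
  unfold S0 at hz
  induction hz using LieSubalgebra.lieSpan_induction with
  | mem x hx =>
    simp only [Set.mem_insert_iff, Set.mem_singleton_iff] at hx
    rcases hx with rfl | rfl
    · exact ⟨1, 0, by module⟩
    · exact ⟨0, 1, by module⟩
  | zero => exact ⟨0, 0, by module⟩
  | smul c x hx ih => obtain ⟨s, r, rfl⟩ := ih; exact ⟨c * s, c * r, by module⟩
  | add x y hx hy ihx ihy =>
    obtain ⟨s, r, rfl⟩ := ihx
    obtain ⟨s', r', rfl⟩ := ihy
    exact ⟨s + s', r + r', by module⟩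
  | lie x y hx hy ihx ihy =>
    obtain ⟨s, r, rfl⟩ := ihx
    obtain ⟨s', r', rfl⟩ := ihy
    refine ⟨0, s * r' - s' * r, ?_⟩
    have hvu : ⁅gen k 1, gen k 0⁆ = -gen k 1 := by rw [← lie_skew, gen_rel]
    simp only [lie_add, add_lie, lie_smul, smul_lie, lie_self, gen_rel, hvu, smul_zero]
    module

lemma a_ne_zero : gen k 0 ≠ 0 := by
  intro h
  have h2 := congrArg (fun z => (pr k z).s) h
  simp [pr] at h2
lemma b_ne_zero : gen k 1 ≠ 0 := by
  intro h
  have h2 := congrArg (fun z => (pr k z).r) h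
  simp [pr] at h2

lemma S0_unique {ι : Type u} {B : ι → LieSubalgebra k (LL k)} (H : IsFP (S0 k) B) (j j' : ι) :
    j = j' := by
  classical
  have key : ∀ i i' : ι, i ≠ i' → gen k 1 ∈ B i' := by
    intro i i' hne
    obtain ⟨w, hw, hw0⟩ := exists_ne_zero (H.1 i')
    obtain ⟨s, r, hsr⟩ := mem_S0 (H.le i' hw)
    obtain ⟨g, hg⟩ := H.exists_hom (↥(B i)) (fun l => if h : l = i then
      LieSubalgebra.inclusion (le_of_eq (congrArg B h)) else 0)
    have hgw : g ⟨w, H.le i' hw⟩ = 0 := by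
      rw [hg i' w hw, dif_neg (Ne.symm hne)]; rfl
    have hgi : ∀ (v : LL k) (hv : v ∈ B i), (g ⟨v, H.le i hv⟩ : LL k) = v := by
      intro v hv
      rw [hg i v hv, dif_pos rfl]; rfl
    by_cases hs : s = 0
    · subst hs
      have hr : r ≠ 0 := by
        rintro rfl
        apply hw0; rw [hsr]; simp
      have := (B i').smul_mem r⁻¹ hw
      rw [hsr, zero_smul, zero_add, smul_smul, inv_mul_cancel₀ hr, one_smul] at this
      exact this
    · exfalso
      -- the kernel of `g` contains `b`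
      have h1 : g ⟨gen k 1, S0_b⟩ = 0 := by
        have h2 : ⁅(⟨w, H.le i' hw⟩ : ↥(S0 k)), (⟨gen k 1, S0_b⟩ : ↥(S0 k))⁆
            = s • (⟨gen k 1, S0_b⟩ : ↥(S0 k)) := by
          apply Subtype.ext
          change ⁅w, gen k 1⁆ = s • gen k 1
          rw [hsr, add_lie, smul_lie, smul_lie, gen_rel, lie_self, smul_zero, add_zero]
        have h3 := congrArg g h2
        rw [LieHom.map_lie, hgw, zero_lie, map_smul] at h3
        exact (smul_eq_zero.1 h3.symm).resolve_left hs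
      have h4 : g ⟨gen k 0, S0_a⟩ = 0 := by
        have h2 : (⟨w, H.le i' hw⟩ : ↥(S0 k)) = s • (⟨gen k 0, S0_a⟩ : ↥(S0 k))
            + r • (⟨gen k 1, S0_b⟩ : ↥(S0 k)) := by
          apply Subtype.ext
          exact hsr
        have h3 := congrArg g h2
        rw [hgw, map_add, map_smul, map_smul, h1, smul_zero, add_zero] at h3
        exact (smul_eq_zero.1 h3.symm).resolve_left hs
      obtain ⟨v, hv, hv0⟩ := exists_ne_zero (H.1 i)
      apply hv0
      rw [← hgi v hv]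
      obtain ⟨s', r', h5⟩ := mem_S0 (H.le i hv)
      have h6 : (⟨v, H.le i hv⟩ : ↥(S0 k)) = s' • (⟨gen k 0, S0_a⟩ : ↥(S0 k))
            + r' • (⟨gen k 1, S0_b⟩ : ↥(S0 k)) := by
          apply Subtype.ext
          exact h5
      rw [h6, map_add, map_smul, map_smul, h1, h4]
      simp
  by_contra hne
  exact b_ne_zero (H.disjoint hne (key j' j (Ne.symm hne)) (key j j' hne))

/-! ### the two decompositions -/

lemma isFP_top {L : Type u} [LieRing L] [LieAlgebra k L] {ι : Type u}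
    {B : ι → LieSubalgebra k L} (h0 : ∀ j, B j ≠ ⊥)
    (hex : ∀ (M : Type u) [LieRing M] [LieAlgebra k M] (f : ∀ j, ↥(B j) →ₗ⁅k⁆ M),
      ∃ g : L →ₗ⁅k⁆ M, ∀ (j : ι), g.comp (B j).incl = f j)
    (huq : ∀ (M : Type u) [LieRing M] [LieAlgebra k M] (g g' : L →ₗ⁅k⁆ M),
      (∀ (j : ι), ∀ v ∈ B j, g v = g' v) → g = g') :
    IsFP (⊤ : LieSubalgebra k L) B := by
  refine ⟨h0, fun j => le_top, ?_⟩
  intro M _ _ f
  obtain ⟨g, hg⟩ := hex M f
  refine ⟨g.comp (⊤ : LieSubalgebra k L).incl, fun j => ?_, ?_⟩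
  · ext v
    exact LieHom.congr_fun (hg j) v
  · intro g' hg'
    have h1 : g'.comp (LieSubalgebra.topEquiv (R := k) (L := L)).symm.toLieHom = g := by
      apply huq
      intro j v hv
      have h2 := LieHom.congr_fun (hg' j) ⟨v, hv⟩
      have h3 := LieHom.congr_fun (hg j) ⟨v, hv⟩
      exact h2.trans h3.symm
    ext ⟨v, hv⟩
    exact LieHom.congr_fun h1 v

variable (k) in
/-- first decomposition -/
def dec1 : ULift.{u} (Fin 3) → LieSubalgebra k (LL k) := fun i =>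
  match i.down with
  | 0 => S0 k
  | 1 => LieSubalgebra.lieSpan k (LL k) {gen k 2}
  | 2 => LieSubalgebra.lieSpan k (LL k) {gen k 3}

variable (k) in
/-- second decomposition -/
def dec2 : ULift.{u} (Fin 2) → LieSubalgebra k (LL k) := fun i =>
  match i.down with
  | 0 => QQ k
  | 1 => LieSubalgebra.lieSpan k (LL k) {zeta k}

lemma x_ne_zero : gen k 2 ≠ 0 := by
  intro h
  have h2 := congrArg (fun z => (llift (G := G2 k) 0 0 ⟨1, 0, PUnit.unit⟩ 0 (by simp) z).s) h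
  simp at h2
lemma y_ne_zero : gen k 3 ≠ 0 := by
  intro h
  have h2 := congrArg (fun z => (llift (G := G2 k) 0 0 0 ⟨1, 0, PUnit.unit⟩ (by simp) z).s) h
  simp at h2
lemma zeta_ne_zero : zeta k ≠ 0 := by
  intro h
  have h2 := congrArg (fun z => (llift (G := G2 k) 0 0 ⟨1, 0, PUnit.unit⟩ 0 (by simp) z).s) h
  simp only [map_zeta, llift_0, llift_1, llift_2, llift_3] at h2
  simp at h2

lemma ne_bot_of_mem {L : Type u} [LieRing L] [LieAlgebra k L] {B : LieSubalgebra k L} {v : L}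
    (hv : v ∈ B) (h0 : v ≠ 0) : B ≠ ⊥ := by
  intro h
  exact h0 ((LieSubalgebra.eq_bot_iff B).1 h v hv)

lemma isFP_dec1 : IsFP (⊤ : LieSubalgebra k (LL k)) (dec1 k) := by
  apply isFP_top
  · rintro ⟨i⟩
    fin_cases i
    · exact ne_bot_of_mem S0_a a_ne_zero
    · exact ne_bot_of_mem (mem_one_self _) x_ne_zero
    · exact ne_bot_of_mem (mem_one_self _) y_ne_zero
  · intro M _ _ f
    have hrel : ⁅f ⟨0⟩ ⟨gen k 0, S0_a⟩, f ⟨0⟩ ⟨gen k 1, S0_b⟩⁆ = f ⟨0⟩ ⟨gen k 1, S0_b⟩ := by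
      rw [← LieHom.map_lie]
      congr 1
      apply Subtype.ext
      exact gen_rel k
    refine ⟨llift (f ⟨0⟩ ⟨gen k 0, S0_a⟩) (f ⟨0⟩ ⟨gen k 1, S0_b⟩)
      (f ⟨1⟩ ⟨gen k 2, mem_one_self _⟩) (f ⟨2⟩ ⟨gen k 3, mem_one_self _⟩) hrel, ?_⟩
    rintro ⟨i⟩
    fin_cases i
    · apply hom_ext_lieSpan
      intro v hv
      simp only [Set.mem_insert_iff, Set.mem_singleton_iff] at hv
      rcases hv with rfl | rfl
      · exact llift_0 _ _ _ _ hrel
      · exact llift_1 _ _ _ _ hrel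
    · apply hom_ext_lieSpan
      intro v hv
      obtain rfl : v = gen k 2 := hv
      exact llift_2 _ _ _ _ hrel
    · apply hom_ext_lieSpan
      intro v hv
      obtain rfl : v = gen k 3 := hv
      exact llift_3 _ _ _ _ hrel
  · intro M _ _ g g' h
    apply LL_ext
    · exact h ⟨0⟩ _ S0_a
    · exact h ⟨0⟩ _ S0_b
    · exact h ⟨1⟩ _ (mem_one_self _)
    · exact h ⟨2⟩ _ (mem_one_self _)

lemma isFP_dec2 : IsFP (⊤ : LieSubalgebra k (LL k)) (dec2 k) := by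
  apply isFP_top
  · rintro ⟨i⟩
    fin_cases i
    · exact ne_bot_of_mem a_mem a_ne_zero
    · exact ne_bot_of_mem (mem_one_self _) zeta_ne_zero
  · intro M _ _ f
    obtain ⟨f0, hf0⟩ : ∃ f0 : ↥(QQ k) →ₗ⁅k⁆ M, f0 = f ⟨0⟩ := ⟨_, rfl⟩
    obtain ⟨f1, hf1⟩ : ∃ f1 : ↥(LieSubalgebra.lieSpan k (LL k) {zeta k}) →ₗ⁅k⁆ M, f1 = f ⟨1⟩ :=
      ⟨_, rfl⟩
    set α : M := f0 ⟨_, a_mem⟩ with hα
    set β := f0 ⟨_, b_mem⟩ with hβ
    set ε₁ := f0 ⟨_, e1_mem⟩ with hε₁
    set ε₂ := f0 ⟨_, e2_mem⟩ with hε₂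
    set ζ := f1 ⟨_, mem_one_self _⟩ with hζ
    have hrel : ⁅α, β⁆ = β := by
      rw [hα, hβ, ← LieHom.map_lie]
      congr 1
      apply Subtype.ext
      exact gen_rel k
    have hrel2 : ε₁ - ⁅α, ε₁⁆ + ε₂ + ⁅β, ε₂⁆ = 0 := by
      have h : (⟨_, e1_mem⟩ : ↥(QQ k)) - ⁅(⟨_, a_mem⟩ : ↥(QQ k)), (⟨_, e1_mem⟩ : ↥(QQ k))⁆
          + (⟨_, e2_mem⟩ : ↥(QQ k)) + ⁅(⟨_, b_mem⟩ : ↥(QQ k)), (⟨_, e2_mem⟩ : ↥(QQ k))⁆ = 0 := by
        apply Subtype.ext
        exact e_rel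
      have h2 := congrArg f0 h
      rw [map_add, map_add, map_sub, LieHom.map_lie, LieHom.map_lie, map_zero] at h2
      exact h2
    set g := llift (k := k) α β (ε₁ + ζ + ⁅β, ζ⁆) (ε₂ + ⁅α, ζ⁆) hrel with hg
    have hgz : g (zeta k) = ζ := by
      rw [map_zeta g]
      simp only [hg, llift_0, llift_1, llift_2, llift_3]
      have h1 : ⁅α, ⁅β, ζ⁆⁆ = ⁅β, ζ⁆ + ⁅β, ⁅α, ζ⁆⁆ := by rw [leibniz_lie, hrel]
      simp only [lie_add, h1]
      have h3 : ε₁ + ζ + ⁅β, ζ⁆ - (⁅α, ε₁⁆ + ⁅α, ζ⁆ + (⁅β, ζ⁆ + ⁅β, ⁅α, ζ⁆⁆)) + (ε₂ + ⁅α, ζ⁆)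
          + (⁅β, ε₂⁆ + ⁅β, ⁅α, ζ⁆⁆) = (ε₁ - ⁅α, ε₁⁆ + ε₂ + ⁅β, ε₂⁆) + ζ := by abel
      rw [h3, hrel2, zero_add]
    have hge1 : g (e1 k) = ε₁ := by
      rw [map_e1 g, hgz]
      simp only [hg, llift_1, llift_2]
      abel
    have hge2 : g (e2 k) = ε₂ := by
      rw [map_e2 g, hgz]
      simp only [hg, llift_0, llift_3]
      abel
    refine ⟨g, ?_⟩
    rintro ⟨i⟩
    fin_cases i
    · change g.comp (QQ k).incl = f ⟨0⟩
      rw [← hf0]
      apply QQ_ext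
      · exact llift_0 _ _ _ _ hrel
      · exact llift_1 _ _ _ _ hrel
      · exact hge1
      · exact hge2
    · change g.comp (LieSubalgebra.lieSpan k (LL k) {zeta k}).incl = f ⟨1⟩
      rw [← hf1]
      apply hom_ext_lieSpan
      intro v hv
      obtain rfl : v = zeta k := hv
      exact hgz
  · intro M _ _ g g' h
    have h0 := h ⟨0⟩ _ a_mem
    have h1 := h ⟨0⟩ _ b_mem
    have h2 := h ⟨0⟩ _ e1_mem
    have h3 := h ⟨0⟩ _ e2_mem
    have h4 := h ⟨1⟩ _ (mem_one_self _)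
    apply LL_ext
    · exact h0
    · exact h1
    · rw [x_eq, map_add, map_add, LieHom.map_lie, map_add, map_add, LieHom.map_lie, h1, h2, h4]
    · rw [y_eq, map_add, LieHom.map_lie, map_add, LieHom.map_lie, h0, h3, h4]

end Pool.Agent.H405R3.FP
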