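import Pool.Agent.H405R3.FPBasic
import Pool.Agent.H405R3.FPAlg

set_option autoImplicit false

noncomputable section

universe u

open Polynomial

namespace Pool.Agent.H405R3.FP

variable {k : Type u} [Field k]

/-- The two dimensional nonabelian Lie algebra. -/
abbrev G2 (k : Type u) [Field k] : Type u :=
  SD k PUnit.{u+1} (0 : PUnit.{u+1} →ₗ[k] PUnit.{u+1}) 0 (fun _ => rfl)

/-- the derivation `lambda * s * d/ds` of `k[lambda][s]` -/
def der (k : Type u) [Field k] : Derivation k k[X][X] k[X][X] :=
  (C X * X : k[X][X]) • ((Polynomial.derivative' (R := k[X])).restrictScalars k)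

lemma der_apply (f : k[X][X]) : der k f = C X * X * derivative f := rfl

lemma coeff_der (f : k[X][X]) (n : ℕ) : (der k f).coeff n = (n : k[X]) * X * f.coeff n := by
  rw [der_apply, mul_assoc, coeff_C_mul]
  rcases n with _ | n
  · simp
  · rw [coeff_X_mul, coeff_derivative]
    push_cast
    ring

/-- evaluation at `lambda = 0`, `s = 1` -/
def sp : RR k k[X][X] (der k) →ₗ⁅k⁆ G2 k where
  toFun x := ⟨eval 0 (eval 1 x.p), eval 0 (eval 1 x.q), PUnit.unit⟩
  map_add' x y := by ext <;> simp
  map_smul' c x := by ext <;> simp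
  map_lie' := by
    intro x y
    have h : ∀ f : k[X][X], eval 0 (eval 1 (der k f)) = 0 := by
      intro f; rw [der_apply]; simp
    ext
    · simp [h]
    · simp [h]

/-- evaluation at `s = 0` -/
def ev0 : RR k k[X][X] (der k) →ₗ⁅k⁆ RR k k[X] (0 : Derivation k k[X] k[X]) where
  toFun x := ⟨x.c, x.p.coeff 0, x.q.coeff 0⟩
  map_add' x y := by ext1 <;> simp
  map_smul' c x := by ext1 <;> simp
  map_lie' := by
    intro x y
    refine RR.ext ?_ ?_ ?_
    · simp
    · simp [coeff_der]
    · simp [coeff_der, mul_coeff_zero]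

/-- the map `a ↦ d + faa a + fab b`, `b ↦ fbb b` -/
def kap (faa fab fbb : k) (h : faa * fbb = fbb) :
    G2 k →ₗ⁅k⁆ RR k k[X] (0 : Derivation k k[X] k[X]) where
  toFun x := ⟨x.s, C (x.s * faa), C (x.s * fab + x.r * fbb)⟩
  map_add' x y := by
    refine RR.ext ?_ ?_ ?_
    · simp
    · simp [add_mul]
    · simp only [SD.add_s, SD.add_r, RR.add_q, ← C_add]
      congr 1; ring
  map_smul' c x := by
    refine RR.ext ?_ ?_ ?_
    · simp
    · simp only [SD.smul_s, RR.smul_p, RingHom.id_apply, smul_C, smul_eq_mul]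
      congr 1; ring
    · simp only [SD.smul_s, SD.smul_r, RR.smul_q, RingHom.id_apply, smul_C, smul_eq_mul]
      congr 1; ring
  map_lie' := by
    intro x y
    refine RR.ext ?_ ?_ ?_
    · simp
    · simp
    · simp only [SD.lie_s, SD.lie_r, RR.lie_q, Derivation.zero_apply, smul_zero, sub_zero, zero_add,
        ← C_mul, ← C_sub]
      congr 1
      linear_combination (x.r * y.s - x.s * y.r) * h

/-- The projection to the two dimensional algebra that kills `x, y`. -/
def pr (k : Type u) [Field k] : LL k →ₗ⁅k⁆ G2 k :=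
  llift ⟨1, 0, PUnit.unit⟩ ⟨0, 1, PUnit.unit⟩ 0 0 (by ext <;> simp)

section
variable (faa fab fbb e1p e1q e2p e2q : k) (h : faa * fbb = fbb)

/-- The deformation. -/
def Gam : LL k →ₗ⁅k⁆ RR k k[X][X] (der k) :=
  llift ⟨1, C (C faa), C (C fab)⟩ ⟨0, 0, C (C fbb)⟩ ⟨0, C (C e1p) * X, C (C e1q) * X⟩
    ⟨0, C (C e2p) * X, C (C e2q) * X⟩ (by
      refine RR.ext ?_ ?_ ?_
      · simp
      · simp
      · have h1 : der k (C (C fbb)) = 0 := by rw [der_apply]; simp
        simp only [RR.lie_q, h1, smul_zero, zero_smul, sub_zero, zero_mul, zero_add, ← C_mul, h])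

lemma ev0_Gam (z : LL k) : ev0 (Gam faa fab fbb e1p e1q e2p e2q h z)
    = kap faa fab fbb h (pr k z) := by
  have : ev0.comp (Gam faa fab fbb e1p e1q e2p e2q h) = (kap faa fab fbb h).comp (pr k) := by
    apply LL_ext
    · simp only [LieHom.comp_apply, Gam, pr, llift_0]
      refine RR.ext ?_ ?_ ?_ <;> simp [ev0, kap]
    · simp only [LieHom.comp_apply, Gam, pr, llift_1]
      refine RR.ext ?_ ?_ ?_ <;> simp [ev0, kap]
    · simp only [LieHom.comp_apply, Gam, pr, llift_2]
      refine RR.ext ?_ ?_ ?_ <;> simp [ev0]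
    · simp only [LieHom.comp_apply, Gam, pr, llift_3]
      refine RR.ext ?_ ?_ ?_ <;> simp [ev0]
  exact LieHom.congr_fun this z

lemma sp_Gam : sp.comp (Gam faa fab fbb e1p e1q e2p e2q h) =
    llift (G := G2 k) ⟨faa, fab, PUnit.unit⟩ ⟨0, fbb, PUnit.unit⟩ ⟨e1p, e1q, PUnit.unit⟩
      ⟨e2p, e2q, PUnit.unit⟩ (by ext <;> simp [h]) := by
  apply LL_ext
  · simp only [LieHom.comp_apply, Gam, llift_0]
    ext <;> simp [sp]
  · simp only [LieHom.comp_apply, Gam, llift_1]
    ext <;> simp [sp]
  · simp only [LieHom.comp_apply, Gam, llift_2]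
    ext <;> simp [sp]
  · simp only [LieHom.comp_apply, Gam, llift_3]
    ext <;> simp [sp]

/-- **Detection lemma.** A vector `v` with `[u, v] = v` and trivial projection is killed by the
deformation. -/
lemma Gam_eq_zero [CharZero k] {u v : LL k} (huv : ⁅u, v⁆ = v) (hv : pr k v = 0) :
    Gam faa fab fbb e1p e1q e2p e2q h v = 0 := by
  set U := Gam faa fab fbb e1p e1q e2p e2q h u with hU
  set V := Gam faa fab fbb e1p e1q e2p e2q h v with hV
  have hUV : ⁅U, V⁆ = V := by rw [hU, hV, ← LieHom.map_lie, huv]
  have hV0 : ev0 V = 0 := by rw [hV, ev0_Gam, hv, map_zero]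
  have hU0 := ev0_Gam faa fab fbb e1p e1q e2p e2q h u
  rw [← hU] at hU0
  have hVc : V.c = 0 := congrArg RR.c hV0
  have hVq0 : V.q.coeff 0 = 0 := congrArg RR.q hV0
  have hUc : U.c = (pr k u).s := congrArg RR.c hU0
  have hUp0 : U.p.coeff 0 = C ((pr k u).s * faa) := congrArg RR.p hU0
  have hp := congrArg RR.p hUV
  have hq := congrArg RR.q hUV
  simp only [RR.lie_p, RR.lie_q, hVc, zero_smul, sub_zero] at hp hq
  have hVp : V.p = 0 := by
    ext1 n
    have h1 := congrArg (fun f => coeff f n) hp
    simp only [coeff_smul, coeff_der] at h1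
    have h2 : (C (U.c * n) * X - 1) * V.p.coeff n = 0 := by
      rw [smul_eq_C_mul] at h1
      rw [C_mul, C_eq_natCast]
      linear_combination h1
    rcases mul_eq_zero.1 h2 with h3 | h3
    · exfalso
      have h4 := congrArg (fun f => coeff f 0) h3
      simp at h4
    · rw [h3]; simp
  rw [hVp, zero_mul, sub_zero] at hq
  have hVq : ∀ n, V.q.coeff n = 0 := by
    intro n
    induction n using Nat.strong_induction_on with
    | _ n ih =>
      rcases Nat.eq_zero_or_pos n with rfl | hn
      · exact hVq0
      have h1 := congrArg (fun f => coeff f n) hq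
      simp only [coeff_add, coeff_smul, coeff_der] at h1
      have h5 : (U.p * V.q).coeff n = U.p.coeff 0 * V.q.coeff n := by
        rw [coeff_mul, Finset.sum_eq_single (0, n)]
        · rintro ⟨i, j⟩ hij hne
          have hij : i + j = n := Finset.HasAntidiagonal.mem_antidiagonal.1 hij
          have hj : j < n := by
            rcases Nat.lt_or_ge j n with hlt | hge
            · exact hlt
            · exfalso
              apply hne
              have h8 : j = n := by omega
              have h9 : i = 0 := by omega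
              rw [h8, h9]
          rw [ih j hj, mul_zero]
        · intro hh
          exfalso
          apply hh
          simp
      rw [h5, hUp0, ← hUc] at h1
      have h2 : (C (U.c * n) * X + C (U.c * faa - 1)) * V.q.coeff n = 0 := by
        rw [smul_eq_C_mul] at h1
        rw [C_mul, C_sub, C_eq_natCast, C_1]
        linear_combination h1
      rcases mul_eq_zero.1 h2 with h3 | h3
      · exfalso
        have h4 := congrArg (fun f => coeff f 1) h3
        have h6 := congrArg (fun f => coeff f 0) h3
        simp only [coeff_add, coeff_C_mul, coeff_X_one, mul_one, coeff_C_succ, add_zero,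
          coeff_zero] at h4
        simp only [coeff_add, coeff_C_mul, coeff_X_zero, mul_zero, zero_add, coeff_C_zero,
          coeff_zero] at h6
        rcases mul_eq_zero.1 h4 with h7 | h7
        · rw [h7] at h6; simp at h6
        · have : n = 0 := by exact_mod_cast h7
          omega
      · exact h3
  refine RR.ext hVc hVp ?_
  ext1 n
  rw [hVq n]; simp

end

end Pool.Agent.H405R3.FP
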