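import Pool.Agent.H405R3.FPDec

set_option autoImplicit false

noncomputable section

universe u

namespace Pool.Agent.H405R3.FP

variable {k : Type u} [Field k]

/-- The final contradiction: `QQ` is not the free product of a copy of `S0` and a line. -/
theorem no_split [CharZero k] {ι : Type u} {B : ι → LieSubalgebra k (LL k)}
    (H : IsFP (QQ k) B) (i₀ i₁ : ι) (h01 : i₀ ≠ i₁) (hall : ∀ i, i = i₀ ∨ i = i₁)
    (φ₀ : ↥(S0 k) ≃ₗ⁅k⁆ ↥(B i₀)) {v : LL k} (hv : ∀ (M : Type u) [LieRing M] [LieAlgebra k M] (y : M),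
      ∃ g : LL k →ₗ⁅k⁆ M, g v = y)
    (φ₁ : ↥(LieSubalgebra.lieSpan k (LL k) {v}) ≃ₗ⁅k⁆ ↥(B i₁)) : False := by
  classical
  let a' : ↥(QQ k) := LieSubalgebra.inclusion (H.le i₀) (φ₀ ⟨gen k 0, S0_a⟩)
  let b' : ↥(QQ k) := LieSubalgebra.inclusion (H.le i₀) (φ₀ ⟨gen k 1, S0_b⟩)
  let x' : ↥(QQ k) := LieSubalgebra.inclusion (H.le i₁) (φ₁ ⟨v, mem_one_self v⟩)
  have hab : ⁅a', b'⁆ = b' := by
    change ⁅LieSubalgebra.inclusion (H.le i₀) (φ₀ ⟨gen k 0, S0_a⟩),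
      LieSubalgebra.inclusion (H.le i₀) (φ₀ ⟨gen k 1, S0_b⟩)⁆ = _
    rw [← LieHom.map_lie, ← LieEquiv.map_lie]
    have h : ⁅(⟨gen k 0, S0_a⟩ : ↥(S0 k)), (⟨gen k 1, S0_b⟩ : ↥(S0 k))⁆ = ⟨gen k 1, S0_b⟩ :=
      Subtype.ext (gen_rel k)
    rw [h]
  apply key (a' := a') (b' := b') (x' := x') _ _ hab
  · intro G _ _ α β y hαβ
    obtain ⟨gy, hgy⟩ := hv G y
    obtain ⟨g, hg⟩ := H.exists_hom G (fun i =>
      if h : i = i₀ then ((llift α β 0 0 hαβ).comp (S0 k).incl).comp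
          ((φ₀.symm : ↥(B i₀) →ₗ⁅k⁆ ↥(S0 k)).comp
            (LieSubalgebra.inclusion (le_of_eq (congrArg B h))))
      else if h' : i = i₁ then (gy.comp (LieSubalgebra.lieSpan k (LL k) {v}).incl).comp
          ((φ₁.symm : ↥(B i₁) →ₗ⁅k⁆ ↥(LieSubalgebra.lieSpan k (LL k) {v})).comp
            (LieSubalgebra.inclusion (le_of_eq (congrArg B h'))))
      else 0)
    refine ⟨g, ?_, ?_, ?_⟩
    · have h1 := hg i₀ (φ₀ ⟨gen k 0, S0_a⟩ : ↥(B i₀)) (φ₀ ⟨gen k 0, S0_a⟩).2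
      rw [dif_pos rfl] at h1
      refine h1.trans ?_
      change (llift (k := k) α β 0 0 hαβ) ((φ₀.symm (φ₀ ⟨gen k 0, S0_a⟩) : ↥(S0 k)) : LL k) = α
      rw [LieEquiv.symm_apply_apply]
      exact llift_0 _ _ _ _ _
    · have h1 := hg i₀ (φ₀ ⟨gen k 1, S0_b⟩ : ↥(B i₀)) (φ₀ ⟨gen k 1, S0_b⟩).2
      rw [dif_pos rfl] at h1
      refine h1.trans ?_
      change (llift (k := k) α β 0 0 hαβ) ((φ₀.symm (φ₀ ⟨gen k 1, S0_b⟩) : ↥(S0 k)) : LL k) = β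
      rw [LieEquiv.symm_apply_apply]
      exact llift_1 _ _ _ _ _
    · have h1 := hg i₁ (φ₁ ⟨v, mem_one_self v⟩ : ↥(B i₁)) (φ₁ ⟨v, mem_one_self v⟩).2
      rw [dif_neg (Ne.symm h01), dif_pos rfl] at h1
      refine h1.trans ?_
      change gy (φ₁.symm (φ₁ ⟨v, mem_one_self v⟩) :
        ↥(LieSubalgebra.lieSpan k (LL k) {v})) = y
      rw [LieEquiv.symm_apply_apply]
      exact hgy
  · intro G _ _ g g' h0 h1 h2
    have hS : (g.comp (LieSubalgebra.inclusion (H.le i₀))).comp (φ₀ : ↥(S0 k) →ₗ⁅k⁆ ↥(B i₀))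
        = (g'.comp (LieSubalgebra.inclusion (H.le i₀))).comp (φ₀ : ↥(S0 k) →ₗ⁅k⁆ ↥(B i₀)) := by
      apply hom_ext_lieSpan
      intro w hw
      simp only [Set.mem_insert_iff, Set.mem_singleton_iff] at hw
      rcases hw with rfl | rfl
      · exact h0
      · exact h1
    have hV : (g.comp (LieSubalgebra.inclusion (H.le i₁))).comp
        (φ₁ : ↥(LieSubalgebra.lieSpan k (LL k) {v}) →ₗ⁅k⁆ ↥(B i₁))
        = (g'.comp (LieSubalgebra.inclusion (H.le i₁))).comp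
        (φ₁ : ↥(LieSubalgebra.lieSpan k (LL k) {v}) →ₗ⁅k⁆ ↥(B i₁)) := by
      apply hom_ext_lieSpan
      intro w hw
      obtain rfl : w = v := hw
      exact h2
    apply H.hom_ext
    intro i w hw
    rcases hall i with rfl | rfl
    · have h3 := LieHom.congr_fun hS (φ₀.symm ⟨w, hw⟩)
      change g (LieSubalgebra.inclusion (H.le i) (φ₀ (φ₀.symm ⟨w, hw⟩)))
        = g' (LieSubalgebra.inclusion (H.le i) (φ₀ (φ₀.symm ⟨w, hw⟩))) at h3
      rw [LieEquiv.apply_symm_apply] at h3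
      exact h3
    · have h3 := LieHom.congr_fun hV (φ₁.symm ⟨w, hw⟩)
      change g (LieSubalgebra.inclusion (H.le i) (φ₁ (φ₁.symm ⟨w, hw⟩)))
        = g' (LieSubalgebra.inclusion (H.le i) (φ₁ (φ₁.symm ⟨w, hw⟩))) at h3
      rw [LieEquiv.apply_symm_apply] at h3
      exact h3

theorem final (k : Type u) [Field k] [CharZero k]
    (h : ∃ (J : Type u) (B : J → LieSubalgebra k (LL k)) (p : J → ULift.{u} (Fin 3))
      (J' : Type u) (B' : J' → LieSubalgebra k (LL k)) (p' : J' → ULift.{u} (Fin 2)),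
      (∀ i, IsFP (dec1 k i) (fun j : {j : J // p j = i} => B j.1)) ∧
      (∀ i, IsFP (dec2 k i) (fun j : {j : J' // p' j = i} => B' j.1)) ∧
      ∃ σ : J ≃ J', ∀ j : J, Nonempty (↥(B j) ≃ₗ⁅k⁆ ↥(B' (σ j)))) : False := by
  obtain ⟨J, B, p, J', B', p', h1, h2, σ, hσ⟩ := h
  have hne : ∀ i, dec1 k i ≠ ⊥ := isFP_dec1.1
  have hne' : ∀ i, dec2 k i ≠ ⊥ := isFP_dec2.1
  -- the fibres over `0, 1, 2`
  obtain ⟨⟨j0, hj0⟩⟩ := (h1 ⟨0⟩).nonempty (hne _)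
  obtain ⟨⟨j1, hj1⟩⟩ := (h1 ⟨1⟩).nonempty (hne _)
  obtain ⟨⟨j2, hj2⟩⟩ := (h1 ⟨2⟩).nonempty (hne _)
  obtain ⟨⟨jz, hjz⟩⟩ := (h2 ⟨1⟩).nonempty (hne' _)
  have u0 : ∀ j, p j = ⟨0⟩ → j = j0 := by
    intro j hj
    exact congrArg Subtype.val (S0_unique (h1 ⟨0⟩) ⟨j, hj⟩ ⟨j0, hj0⟩)
  have u1 : ∀ j, p j = ⟨1⟩ → j = j1 := by
    intro j hj
    exact congrArg Subtype.val (one_unique x_ne_zero (h1 ⟨1⟩) ⟨j, hj⟩ ⟨j1, hj1⟩)
  have u2 : ∀ j, p j = ⟨2⟩ → j = j2 := by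
    intro j hj
    exact congrArg Subtype.val (one_unique y_ne_zero (h1 ⟨2⟩) ⟨j, hj⟩ ⟨j2, hj2⟩)
  have uz : ∀ j, p' j = ⟨1⟩ → j = jz := by
    intro j hj
    exact congrArg Subtype.val (one_unique zeta_ne_zero (h2 ⟨1⟩) ⟨j, hj⟩ ⟨jz, hjz⟩)
  have e0 : B j0 = S0 k := (h1 ⟨0⟩).eq_of_unique (j := ⟨j0, hj0⟩)
    (fun ⟨j, hj⟩ => Subtype.ext (u0 j hj))
  have e1 : B j1 = LieSubalgebra.lieSpan k (LL k) {gen k 2} :=
    (h1 ⟨1⟩).eq_of_unique (j := ⟨j1, hj1⟩) (fun ⟨j, hj⟩ => Subtype.ext (u1 j hj))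
  have e2 : B j2 = LieSubalgebra.lieSpan k (LL k) {gen k 3} :=
    (h1 ⟨2⟩).eq_of_unique (j := ⟨j2, hj2⟩) (fun ⟨j, hj⟩ => Subtype.ext (u2 j hj))
  have ez : B' jz = LieSubalgebra.lieSpan k (LL k) {zeta k} :=
    (h2 ⟨1⟩).eq_of_unique (j := ⟨jz, hjz⟩) (fun ⟨j, hj⟩ => Subtype.ext (uz j hj))
  have hcase : ∀ j, j = j0 ∨ j = j1 ∨ j = j2 := by
    intro j
    obtain ⟨i, hi⟩ : ∃ i, i = p j := ⟨_, rfl⟩
    obtain ⟨i⟩ := i
    fin_cases i
    · exact Or.inl (u0 j hi.symm)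
    · exact Or.inr (Or.inl (u1 j hi.symm))
    · exact Or.inr (Or.inr (u2 j hi.symm))
  have hcase' : ∀ j, p' j = ⟨0⟩ ∨ j = jz := by
    intro j
    obtain ⟨i, hi⟩ : ∃ i, i = p' j := ⟨_, rfl⟩
    obtain ⟨i⟩ := i
    fin_cases i
    · exact Or.inl hi.symm
    · exact Or.inr (uz j hi.symm)
  have d01 : j0 ≠ j1 := by
    rintro rfl; rw [hj0] at hj1; exact absurd (congrArg ULift.down hj1) (by decide)
  have d02 : j0 ≠ j2 := by
    rintro rfl; rw [hj0] at hj2; exact absurd (congrArg ULift.down hj2) (by decide)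
  have d12 : j1 ≠ j2 := by
    rintro rfl; rw [hj1] at hj2; exact absurd (congrArg ULift.down hj2) (by decide)
  -- `σ j0 ≠ jz`
  have hz0 : σ j0 ≠ jz := by
    intro h
    obtain ⟨φ⟩ := hσ j0
    have hab : ∀ x y : ↥(B' (σ j0)), ⁅x, y⁆ = 0 := by
      rw [h, ez]
      rintro ⟨x, hx⟩ ⟨y, hy⟩
      obtain ⟨c, rfl⟩ := mem_span_one hx
      obtain ⟨d, rfl⟩ := mem_span_one hy
      apply Subtype.ext
      change ⁅c • zeta k, d • zeta k⁆ = 0
      simp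
    have hab2 : ∀ x y : ↥(B j0), ⁅x, y⁆ = 0 := by
      intro x y
      have h3 := hab (φ x) (φ y)
      rw [← LieEquiv.map_lie] at h3
      have h4 := congrArg φ.symm h3
      rw [LieEquiv.symm_apply_apply] at h4
      rw [h4]
      exact map_zero (φ.symm : ↥(B' (σ j0)) →ₗ⁅k⁆ ↥(B j0))
    rw [e0] at hab2
    have h5 := hab2 ⟨gen k 0, S0_a⟩ ⟨gen k 1, S0_b⟩
    have h6 : ⁅gen k 0, gen k 1⁆ = 0 := congrArg Subtype.val h5
    rw [gen_rel] at h6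
    exact b_ne_zero h6
  have p0 : p' (σ j0) = ⟨0⟩ := (hcase' _).resolve_right hz0
  -- the general step
  have step : ∀ (jc : J), jc ≠ j0 → σ jc ≠ jz → (∀ j, j = j0 ∨ j = jc ∨ σ j = jz) →
      ∀ v : LL k, B jc = LieSubalgebra.lieSpan k (LL k) {v} →
      (∀ (M : Type u) [LieRing M] [LieAlgebra k M] (y : M), ∃ g : LL k →ₗ⁅k⁆ M, g v = y) →
      False := by
    intro jc hc0 hcz hall v hv hv2
    have pc : p' (σ jc) = ⟨0⟩ := (hcase' _).resolve_right hcz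
    obtain ⟨φ₀⟩ := hσ j0
    obtain ⟨φ₁⟩ := hσ jc
    rw [e0] at φ₀
    rw [hv] at φ₁
    refine no_split (h2 ⟨0⟩) ⟨σ j0, p0⟩ ⟨σ jc, pc⟩ ?_ ?_ φ₀ hv2 φ₁
    · intro h
      exact hc0 (σ.injective (congrArg Subtype.val h)).symm
    · rintro ⟨j', hj'⟩
      rcases hall (σ.symm j') with h | h | h
      · left
        apply Subtype.ext
        change j' = σ j0
        rw [← h, Equiv.apply_symm_apply]
      · right
        apply Subtype.ext
        change j' = σ jc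
        rw [← h, Equiv.apply_symm_apply]
      · exfalso
        rw [Equiv.apply_symm_apply] at h
        rw [h, hjz] at hj'
        exact absurd (congrArg ULift.down hj') (by decide)
  obtain ⟨jt, hjt⟩ := σ.surjective jz
  rcases hcase jt with rfl | rfl | rfl
  · exact hz0 hjt
  · -- `σ j1 = jz`
    apply step j2 d02.symm _ _ (gen k 3) e2
    · intro M _ _ y
      exact ⟨llift 0 0 0 y (by simp), llift_3 _ _ _ _ _⟩
    · intro h
      exact d12 (σ.injective (hjt.trans h.symm))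
    · intro j
      rcases hcase j with rfl | rfl | rfl
      · exact Or.inl rfl
      · exact Or.inr (Or.inr hjt)
      · exact Or.inr (Or.inl rfl)
  · apply step j1 d01.symm _ _ (gen k 2) e1
    · intro M _ _ y
      exact ⟨llift 0 0 y 0 (by simp), llift_2 _ _ _ _ _⟩
    · intro h
      exact d12 (σ.injective (hjt.trans h.symm)).symm
    · intro j
      rcases hcase j with rfl | rfl | rfl
      · exact Or.inl rfl
      · exact Or.inr (Or.inl rfl)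
      · exact Or.inr (Or.inr hjt)

end Pool.Agent.H405R3.FP
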