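import Pool.Agent.H405R3.FPCore

set_option autoImplicit false

noncomputable section

universe u

open Polynomial

namespace Pool.Agent.H405R3.FP

variable {k : Type u} [Field k]

section key

variable {a' b' x' : ↥(QQ k)}
  (hex : ∀ (G : Type u) [LieRing G] [LieAlgebra k G] (α β y : G), ⁅α, β⁆ = β →
    ∃ g : ↥(QQ k) →ₗ⁅k⁆ G, g a' = α ∧ g b' = β ∧ g x' = y)
  (huq : ∀ (G : Type u) [LieRing G] [LieAlgebra k G] (g g' : ↥(QQ k) →ₗ⁅k⁆ G),
    g a' = g' a' → g b' = g' b' → g x' = g' x' → g = g')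

include hex huq in
lemma range_mem (hab : ⁅a', b'⁆ = b') {G : Type u} [LieRing G] [LieAlgebra k G]
    (f : ↥(QQ k) →ₗ⁅k⁆ G) (K : LieSubalgebra k G) (ha : f a' ∈ K) (hb : f b' ∈ K)
    (hx : f x' ∈ K) (z : ↥(QQ k)) : f z ∈ K := by
  obtain ⟨g, hg1, hg2, hg3⟩ := hex ↥K ⟨f a', ha⟩ ⟨f b', hb⟩ ⟨f x', hx⟩ (by
    apply Subtype.ext
    change ⁅f a', f b'⁆ = f b'
    rw [← LieHom.map_lie, hab])
  have h : K.incl.comp g = f := by
    apply huq
    · rw [LieHom.comp_apply, hg1]; rfl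
    · rw [LieHom.comp_apply, hg2]; rfl
    · rw [LieHom.comp_apply, hg3]; rfl
  rw [← h]
  exact (g z).2

/-- The image of `b'` is visible in the two dimensional quotient. -/
lemma pr_ne_zero [CharZero k] (hab : ⁅a', b'⁆ = b')
    (g : ↥(QQ k) →ₗ⁅k⁆ G2 k) (hg : g b' ≠ 0) : pr k (b' : LL k) ≠ 0 := by
  intro hb
  apply hg
  set fa := g ⟨_, a_mem⟩ with hfa
  set fb := g ⟨_, b_mem⟩ with hfb
  set f1 := g ⟨_, e1_mem⟩ with hf1
  set f2 := g ⟨_, e2_mem⟩ with hf2
  have hfab : ⁅fa, fb⁆ = fb := by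
    rw [hfa, hfb, ← LieHom.map_lie]
    congr 1
    apply Subtype.ext
    exact gen_rel k
  have hfbs : fb.s = 0 := by rw [← hfab]; rfl
  have hfr : fa.s * fb.r = fb.r := by
    have h := congrArg SD.r hfab
    rw [SD.lie_r, hfbs, zero_mul, sub_zero] at h
    exact h
  have hrel : f1 - ⁅fa, f1⁆ + f2 + ⁅fb, f2⁆ = 0 := by
    have h : (⟨_, e1_mem⟩ : ↥(QQ k)) - ⁅(⟨_, a_mem⟩ : ↥(QQ k)), (⟨_, e1_mem⟩ : ↥(QQ k))⁆
        + (⟨_, e2_mem⟩ : ↥(QQ k)) + ⁅(⟨_, b_mem⟩ : ↥(QQ k)), (⟨_, e2_mem⟩ : ↥(QQ k))⁆ = 0 := by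
      apply Subtype.ext
      exact e_rel
    have h2 := congrArg g h
    rw [map_add, map_add, map_sub, LieHom.map_lie, LieHom.map_lie, map_zero] at h2
    exact h2
  -- the deformation
  have hG := sp_Gam (k := k) fa.s fa.r fb.r f1.s f1.r f2.s f2.r hfr
  set Γ := Gam fa.s fa.r fb.r f1.s f1.r f2.s f2.r hfr with hΓ
  have e0 : sp (Γ (gen k 0)) = fa := by
    have := LieHom.congr_fun hG (gen k 0)
    rw [LieHom.comp_apply, llift_0] at this
    exact this
  have e1' : sp (Γ (gen k 1)) = fb := by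
    have := LieHom.congr_fun hG (gen k 1)
    rw [LieHom.comp_apply, llift_1] at this
    rw [this]
    exact SD.ext hfbs.symm rfl rfl
  have e2' : sp (Γ (gen k 2)) = f1 := by
    have := LieHom.congr_fun hG (gen k 2)
    rw [LieHom.comp_apply, llift_2] at this
    exact this
  have e3' : sp (Γ (gen k 3)) = f2 := by
    have := LieHom.congr_fun hG (gen k 3)
    rw [LieHom.comp_apply, llift_3] at this
    exact this
  have ez : (sp.comp Γ) (zeta k) = 0 := by
    rw [map_zeta]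
    simp only [LieHom.comp_apply]
    rw [e0, e1', e2', e3']
    exact hrel
  have heq : (sp.comp Γ).comp (QQ k).incl = g := by
    apply QQ_ext
    · exact e0
    · exact e1'
    · change (sp.comp Γ) (e1 k) = f1
      rw [map_e1, ez, lie_zero, sub_zero, sub_zero]
      exact e2'
    · change (sp.comp Γ) (e2 k) = f2
      rw [map_e2, ez, lie_zero, sub_zero]
      exact e3'
  have hz : Γ (b' : LL k) = 0 := by
    apply Gam_eq_zero (u := (a' : LL k))
    · exact congrArg Subtype.val hab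
    · exact hb
  rw [← heq]
  change sp (Γ (b' : LL k)) = 0
  rw [hz, map_zero]

include hex huq in
theorem key [CharZero k] (hab : ⁅a', b'⁆ = b') : False := by
  obtain ⟨g, -, hg, -⟩ := hex (G2 k) ⟨1, 0, PUnit.unit⟩ ⟨0, 1, PUnit.unit⟩ 0 (by ext <;> simp)
  have hβ : pr k (b' : LL k) ≠ 0 := by
    apply pr_ne_zero hab g
    rw [hg]
    intro h
    have := congrArg SD.r h
    simp at this
  set A := qM k (a' : LL k) with hA
  set B := qM k (b' : LL k) with hB
  set X := qM k (x' : LL k) with hX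
  have hAB : ⁅A, B⁆ = B := by
    rw [hA, hB, ← LieHom.map_lie]
    congr 1
    exact congrArg Subtype.val hab
  have hBs : B.s = 0 := by rw [← hAB]; rfl
  have hBr : B.r ≠ 0 := by
    intro h
    apply hβ
    have h2 := qM_pr (b' : LL k)
    exact SD.ext (h2.1.symm.trans hBs) (h2.2.symm.trans h) rfl
  have hAs : A.s = 1 := by
    have h := congrArg SD.r hAB
    rw [SD.lie_r, hBs, zero_mul, sub_zero] at h
    exact mul_right_cancel₀ hBr (h.trans (one_mul _).symm)
  -- the element `p₀`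
  set c := (X.r - X.s * A.r) / B.r with hc
  set p₀ : k[X][X] := X.m - X.s • A.m - c • B.m with hp₀
  have hXeq : X = X.s • A + c • B + (⟨0, 0, p₀⟩ : GM k) := by
    refine SD.ext ?_ ?_ ?_
    · simp [hAs, hBs]
    · simp only [SD.add_r, SD.smul_r, add_zero]
      rw [hc]
      field_simp
      ring
    · simp only [SD.add_m, SD.smul_m, hp₀]
      abel
  have hp₀P : p₀ ∈ (modP : Submodule k k[X][X]) := by
    rw [hp₀]
    exact Submodule.sub_mem _ (Submodule.sub_mem _ (qM_mem x'.2)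
      (Submodule.smul_mem _ _ (qM_mem a'.2))) (Submodule.smul_mem _ _ (qM_mem b'.2))
  have hK : ∀ z : ↥(QQ k), ((qM k).comp (QQ k).incl) z ∈ KC A B hAB p₀ := by
    apply range_mem hex huq hab
    · exact ⟨1, 0, 0, Submodule.zero_mem _, by
        change A = _
        ext1 <;> simp⟩
    · exact ⟨0, 1, 0, Submodule.zero_mem _, by
        change B = _
        ext1 <;> simp⟩
    · exact ⟨X.s, c, p₀, mem_cyc_self _, hXeq⟩
  have hfin : ∀ w : k[X][X], (⟨0, 0, w⟩ : GM k) ∈ KC A B hAB p₀ → w ∈ cyc p₀ := by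
    rintro w ⟨s, r, p, hp, h⟩
    have h1 := congrArg SD.s h
    simp only [SD.add_s, SD.smul_s, hAs, hBs, mul_one, mul_zero, add_zero] at h1
    have h2 := congrArg SD.r h
    simp only [SD.add_r, SD.smul_r, add_zero, ← h1, zero_mul, zero_add] at h2
    have h3 : r = 0 := by
      rcases mul_eq_zero.1 h2.symm with h | h
      · exact h
      · exact absurd h hBr
    have h4 := congrArg SD.m h
    simp only [SD.add_m, SD.smul_m, ← h1, h3, zero_smul, zero_add] at h4
    rw [h4]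
    exact hp
  apply not_cyclic hp₀P
  · apply hfin
    have := hK ⟨_, e1_mem⟩
    rw [← qM_e1]
    exact this
  · apply hfin
    have := hK ⟨_, e2_mem⟩
    rw [← qM_e2]
    exact this

end key

end Pool.Agent.H405R3.FP
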