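import Mathlib

set_option autoImplicit false

namespace Pool.Agent.H405R3.WInf

open MvPolynomial

variable {F : Type} [Field F] [CharZero F]

/-- The polynomial algebra. -/
abbrev A (F : Type) [Field F] := MvPolynomial ℕ F
/-- Its derivations. -/
abbrev Der (F : Type) [Field F] := Derivation F (MvPolynomial ℕ F) (MvPolynomial ℕ F)

/-- finiteness of a derivation -/
def W (d : Der F) : Prop := Set.Finite {i : ℕ | d (X i) ≠ 0}

omit [CharZero F] in
lemma W_zero : W (0 : Der F) := by
  unfold W; simp

omit [CharZero F] in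
lemma W_add {d e : Der F} (hd : W d) (he : W e) : W (d + e) := by
  unfold W at *
  apply (hd.union he).subset
  intro i hi
  by_contra h
  simp only [Set.mem_union, Set.mem_ofPred_eq, not_or, not_not] at h
  apply hi
  rw [Derivation.add_apply, h.1, h.2, add_zero]

omit [CharZero F] in
lemma W_smul {d : Der F} (hd : W d) (f : A F) : W (f • d) := by
  unfold W at *
  apply hd.subset
  intro i hi h
  apply hi
  rw [Derivation.smul_apply, h, smul_zero]

omit [CharZero F] in
lemma W_csmul {d : Der F} (hd : W d) (c : F) : W (c • d) := by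
  unfold W at *
  apply hd.subset
  intro i hi h
  apply hi
  rw [Derivation.smul_apply, h, smul_zero]

omit [CharZero F] in
lemma W_neg {d : Der F} (hd : W d) : W (-d) := by
  have := W_csmul hd (-1 : F)
  have h : (-1 : F) • d = -d := by ext i; simp [Derivation.smul_apply]
  rwa [h] at this

omit [CharZero F] in
lemma W_sub {d e : Der F} (hd : W d) (he : W e) : W (d - e) := by
  rw [sub_eq_add_neg]; exact W_add hd (W_neg he)

omit [CharZero F] in
lemma W_lie {d e : Der F} (hd : W d) (he : W e) : W ⁅d, e⁆ := by
  unfold W at *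
  apply (hd.union he).subset
  intro i hi
  by_contra h
  simp only [Set.mem_union, Set.mem_ofPred_eq, not_or, not_not] at h
  apply hi
  rw [Derivation.commutator_apply, h.1, h.2, map_zero, map_zero, sub_zero]

omit [CharZero F] in
lemma W_pderiv (i : ℕ) : W (pderiv i : Der F) := by
  unfold W
  apply (Set.finite_singleton i).subset
  intro j hj
  by_contra h
  apply hj
  rw [pderiv_X]
  rw [Pi.single_eq_of_ne]
  exact h

omit [CharZero F] in
lemma W_sum {ι : Type} (s : Finset ι) (d : ι → Der F) (h : ∀ i ∈ s, W (d i)) :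
    W (∑ i ∈ s, d i) := by
  classical
  induction s using Finset.induction_on with
  | empty => simpa using W_zero
  | insert a s ha ih =>
    rw [Finset.sum_insert ha]
    exact W_add (h a (Finset.mem_insert_self a s))
      (ih (fun i hi => h i (Finset.mem_insert_of_mem hi)))

omit [CharZero F] in
lemma lie_smul_der (d e : Der F) (f : A F) : ⁅d, f • e⁆ = d f • e + f • ⁅d, e⁆ := by
  ext i
  simp only [Derivation.commutator_apply, Derivation.smul_apply, Derivation.add_apply,
    smul_eq_mul, Derivation.leibniz]
  ring_nf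

omit [CharZero F] in
lemma smul_lie_der (d e : Der F) (f : A F) : ⁅f • d, e⁆ = f • ⁅d, e⁆ - e f • d := by
  ext i
  simp only [Derivation.commutator_apply, Derivation.smul_apply, Derivation.sub_apply,
    smul_eq_mul, Derivation.leibniz]
  ring_nf

omit [CharZero F] in
lemma pderiv_comm_lie (i j : ℕ) : ⁅(pderiv i : Der F), (pderiv j : Der F)⁆ = 0 := by
  ext l
  simp only [Derivation.commutator_apply, pderiv_X, Pi.single_apply]
  split_ifs <;> simp

omit [CharZero F] in
lemma pderiv_Xdelta (i j : ℕ) : (pderiv i : Der F) (X j) = if i = j then 1 else 0 := by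
  rw [pderiv_X, Pi.single_apply]
  simp only [eq_comm]

/-- the elementary field `x_i d_j` -/
noncomputable def ee (i j : ℕ) : Der F := (X i : A F) • pderiv j

omit [CharZero F] in
lemma W_ee (i j : ℕ) : W (ee i j : Der F) := W_smul (W_pderiv j) _

omit [CharZero F] in
lemma lie_pderiv_ee (l i j : ℕ) :
    ⁅(pderiv l : Der F), (ee i j : Der F)⁆ = if l = i then (pderiv j : Der F) else 0 := by
  unfold ee
  rw [lie_smul_der, pderiv_comm_lie, smul_zero, add_zero, pderiv_Xdelta]
  split_ifs <;> simp

omit [CharZero F] in
lemma lie_ee_ee (i j k l : ℕ) : ⁅(ee i j : Der F), (ee k l : Der F)⁆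
    = (if j = k then (ee i l : Der F) else 0) - (if l = i then (ee k j : Der F) else 0) := by
  unfold ee
  rw [lie_smul_der, smul_lie_der, pderiv_comm_lie, smul_zero, zero_sub, Derivation.smul_apply,
    pderiv_Xdelta, pderiv_Xdelta, smul_neg, ← sub_eq_add_neg]
  split_ifs <;> simp

/-- nilpotency index for the partial derivatives -/
def Pn : ℕ → A F → Prop
  | 0, p => p = 0
  | m + 1, p => ∀ i, Pn m (pderiv i p)

omit [CharZero F] in
lemma Pn_zero (m : ℕ) : Pn m (0 : A F) := by
  induction m with
  | zero => rfl
  | succ m ih => intro i; rw [map_zero]; exact ih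

omit [CharZero F] in
lemma Pn_add (m : ℕ) {p q : A F} (hp : Pn m p) (hq : Pn m q) : Pn m (p + q) := by
  induction m generalizing p q with
  | zero =>
    have hp' : p = 0 := hp
    have hq' : q = 0 := hq
    change p + q = 0
    rw [hp', hq', add_zero]
  | succ m ih => intro i; rw [map_add]; exact ih (hp i) (hq i)

omit [CharZero F] in
lemma Pn_succ (m : ℕ) {p : A F} (hp : Pn m p) : Pn (m + 1) p := by
  induction m generalizing p with
  | zero =>
    have hp' : p = 0 := hp
    intro i
    rw [hp', map_zero]
    exact rfl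
  | succ m ih => intro i; exact ih (hp i)

omit [CharZero F] in
lemma Pn_mono {m n : ℕ} (h : m ≤ n) {p : A F} (hp : Pn m p) : Pn n p := by
  induction n, h using Nat.le_induction with
  | base => exact hp
  | succ n _ ih => exact Pn_succ n ih

omit [CharZero F] in
lemma Pn_mulX (m : ℕ) {p : A F} (hp : Pn m p) (n : ℕ) : Pn (m + 1) (p * X n) := by
  induction m generalizing p with
  | zero =>
    have hp' : p = 0 := hp
    rw [hp', zero_mul]; exact Pn_zero _
  | succ m ih =>
    intro i
    rw [Derivation.leibniz, pderiv_Xdelta]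
    apply Pn_add
    · split_ifs
      · simpa using hp
      · simpa using Pn_zero _
    · rw [smul_eq_mul, mul_comm]
      exact ih (hp i)

omit [CharZero F] in
lemma exists_Pn (p : A F) : ∃ m, Pn m p := by
  induction p using MvPolynomial.induction_on with
  | C a =>
    refine ⟨1, fun i => ?_⟩
    rw [pderiv_C]; exact rfl
  | add p q hp hq =>
    obtain ⟨m, hm⟩ := hp
    obtain ⟨n, hn⟩ := hq
    exact ⟨max m n, Pn_add _ (Pn_mono (le_max_left m n) hm) (Pn_mono (le_max_right m n) hn)⟩
  | mul_X p n hp =>
    obtain ⟨m, hm⟩ := hp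
    exact ⟨m + 1, Pn_mulX m hm n⟩

omit [CharZero F] in
lemma exists_Pn_W {e : Der F} (he : W e) : ∃ m, ∀ j, Pn m (e (X j)) := by
  classical
  choose f hf using fun p : A F => exists_Pn p
  unfold W at he
  refine ⟨he.toFinset.sup (fun j => f (e (X j))), fun j => ?_⟩
  by_cases hj : e (X j) = 0
  · rw [hj]; exact Pn_zero _
  · have hmem : j ∈ he.toFinset := by rw [Set.Finite.mem_toFinset]; exact hj
    exact Pn_mono (Finset.le_sup (f := fun j => f (e (X j))) hmem) (hf _)

omit [CharZero F] in
lemma lie_pderiv_apply (i j : ℕ) (e : Der F) :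
    ⁅(pderiv i : Der F), e⁆ (X j) = pderiv i (e (X j)) := by
  rw [Derivation.commutator_apply, pderiv_Xdelta]
  split_ifs <;> simp

/-- a polynomial all of whose derivatives vanish is constant -/
lemma const_of_pderiv {p : A F} (h : ∀ i, pderiv i p = 0) : ∃ c : F, p = C c := by
  have hv : p.vars = ∅ := by
    rw [Finset.eq_empty_iff_forall_notMem]
    intro i hi
    rw [mem_vars_iff_mem_support] at hi
    obtain ⟨d, hd, hdi⟩ := hi
    have h1 := congrArg (coeff (d - Finsupp.single i 1)) (h i)
    have hdi' : d i ≠ 0 := by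
      rwa [Finsupp.mem_support_iff] at hdi
    rw [coeff_pderiv, coeff_zero] at h1
    have h2 : d - Finsupp.single i 1 + Finsupp.single i 1 = d := by
      apply tsub_add_cancel_of_le
      rw [Finsupp.single_le_iff]
      omega
    rw [h2] at h1
    rw [mem_support_iff] at hd
    rcases mul_eq_zero.1 h1 with h3 | h3
    · exact hd h3
    · norm_cast at h3
  exact ⟨_, vars_eq_empty_iff_eq_C.1 hv⟩

end Pool.Agent.H405R3.WInf
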