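import Pool.Agent.H405R3.WInf

set_option autoImplicit false

namespace Pool.Agent.H405R3.WInf

open MvPolynomial

variable {F : Type} [Field F] [CharZero F]

/-- The hypotheses: `θ` restricts to an automorphism of the Lie algebra `W_∞`. -/
structure Hyp (θ : Der F → Der F) : Prop where
  maps : ∀ d, W d → W (θ d)
  surj : ∀ e, W e → ∃ d, W d ∧ θ d = e
  inj : ∀ d e, W d → W e → θ d = θ e → d = e
  add : ∀ d e, W d → W e → θ (d + e) = θ d + θ e
  lie : ∀ d e, W d → W e → θ ⁅d, e⁆ = ⁅θ d, θ e⁆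
  smul : ∀ (c : F) d, W d → θ (c • d) = c • θ d

omit [CharZero F] in
lemma smul_der_eq_zero {d : Der F} (hd : d ≠ 0) {f : A F} (h : f • d = 0) : f = 0 := by
  by_contra hf
  apply hd
  ext i
  have h1 := congrArg (fun d : Der F => d (X i)) h
  simp only [Derivation.smul_apply, Derivation.zero_apply, smul_eq_mul] at h1
  rw [(mul_eq_zero.1 h1).resolve_left hf]
  rfl

omit [CharZero F] in
lemma csmul_der_eq_zero {d : Der F} (hd : d ≠ 0) {c : F} (h : c • d = 0) : c = 0 := by
  have h1 : (C c : A F) • d = 0 := by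
    rw [← h]
    ext i
    simp [Derivation.smul_apply, smul_eq_C_mul]
  have h2 := smul_der_eq_zero hd h1
  exact (C_injective ℕ F) (by rw [h2, C_0])

omit [CharZero F] in
lemma lie_csmul_der (d e : Der F) (c : F) : ⁅d, c • e⁆ = c • ⁅d, e⁆ := by
  ext i
  rw [Derivation.commutator_apply, Derivation.smul_apply, Derivation.smul_apply,
    Derivation.smul_apply, Derivation.commutator_apply, Derivation.map_smul, smul_sub]

omit [CharZero F] in
lemma sub_smul_der (f g : A F) (d : Der F) : (f - g) • d = f • d - g • d := by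
  ext i
  simp only [Derivation.sub_apply, Derivation.smul_apply, smul_eq_mul, sub_mul]

omit [CharZero F] in
lemma add_smul_der (f g : A F) (d : Der F) : (f + g) • d = f • d + g • d := by
  ext i
  simp only [Derivation.add_apply, Derivation.smul_apply, smul_eq_mul, add_mul]

omit [CharZero F] in
lemma lie_ee_const {e : Der F} {c : ℕ → F} (hc : ∀ j, e (X j) = C (c j)) (i : ℕ) :
    ⁅(ee i i : Der F), e⁆ = (-(c i)) • (pderiv i : Der F) := by
  ext l
  rw [Derivation.commutator_apply, hc l]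
  simp only [ee, Derivation.smul_apply, pderiv_Xdelta, smul_eq_mul, derivation_C,
    mul_zero, zero_sub, mul_ite, mul_one]
  split_ifs with h
  · subst h
    rw [hc, smul_eq_C_mul, C_neg, mul_one]
  · simp

variable {θ : Der F → Der F} (H : Hyp θ)

include H

omit [CharZero F] in
lemma Hyp.zero : θ 0 = 0 := by
  have := H.smul 0 0 W_zero
  rw [zero_smul, zero_smul] at this
  exact this

omit [CharZero F] in
lemma Hyp.neg {d : Der F} (hd : W d) : θ (-d) = - θ d := by
  have h1 := H.add d (-d) hd (W_neg hd)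
  rw [add_neg_cancel, H.zero] at h1
  exact (neg_eq_of_add_eq_zero_right h1.symm).symm

omit [CharZero F] in
lemma Hyp.sub {d e : Der F} (hd : W d) (he : W e) : θ (d - e) = θ d - θ e := by
  rw [sub_eq_add_neg, H.add d (-e) hd (W_neg he), H.neg he, sub_eq_add_neg]

omit [CharZero F] in
lemma Hyp.sum {ι : Type} (s : Finset ι) (d : ι → Der F) (h : ∀ i ∈ s, W (d i)) :
    θ (∑ i ∈ s, d i) = ∑ i ∈ s, θ (d i) := by
  classical
  induction s using Finset.induction_on with
  | empty => simpa using H.zero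
  | insert a s ha ih =>
    have hs : ∀ i ∈ s, W (d i) := fun i hi => h i (Finset.mem_insert_of_mem hi)
    rw [Finset.sum_insert ha, Finset.sum_insert ha,
      H.add _ _ (h a (Finset.mem_insert_self a s)) (W_sum s d hs), ih hs]

omit [CharZero F] in
lemma Hyp.eq_zero {d : Der F} (hd : W d) (h : θ d = 0) : d = 0 :=
  H.inj d 0 hd W_zero (by rw [h, H.zero])

-- relations between the images
omit [CharZero F] in
lemma Hyp.comm (i j : ℕ) : ⁅θ (pderiv i), θ (pderiv j)⁆ = 0 := by
  rw [← H.lie _ _ (W_pderiv i) (W_pderiv j), pderiv_comm_lie, H.zero]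

omit [CharZero F] in
lemma Hyp.comm_ee (l i j : ℕ) :
    ⁅θ (pderiv l), θ (ee i j)⁆ = if l = i then θ (pderiv j) else 0 := by
  rw [← H.lie _ _ (W_pderiv l) (W_ee i j), lie_pderiv_ee]
  split_ifs
  · rfl
  · exact H.zero

omit [CharZero F] in
lemma Hyp.D_ne_zero (i : ℕ) : θ (pderiv i) ≠ 0 := by
  intro h
  have h1 := H.eq_zero (W_pderiv i) h
  have h2 := congrArg (fun d : Der F => d (X i)) h1
  simp [pderiv_Xdelta] at h2

-- commutation on elements
omit [CharZero F] in
lemma Hyp.comm_apply (i j : ℕ) (f : A F) :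
    θ (pderiv i) (θ (pderiv j) f) = θ (pderiv j) (θ (pderiv i) f) := by
  have h := congrArg (fun d : Der F => d f) (H.comm i j)
  simp only [Derivation.commutator_apply, Derivation.zero_apply] at h
  exact sub_eq_zero.1 h

omit [CharZero F] in
lemma Hyp.D_ee_apply (l i j : ℕ) (f : A F) :
    θ (pderiv l) (θ (ee i j) f) = θ (ee i j) (θ (pderiv l) f)
      + if l = i then θ (pderiv j) f else 0 := by
  have h := congrArg (fun d : Der F => d f) (H.comm_ee l i j)
  simp only [Derivation.commutator_apply] at h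
  rw [sub_eq_iff_eq_add] at h
  rw [h, add_comm]
  split_ifs <;> rfl

-- the Lie bracket with `f D_b`
omit [CharZero F] in
lemma Hyp.lie_smul_D (i b : ℕ) (f : A F) :
    ⁅θ (pderiv i), f • θ (pderiv b)⁆ = θ (pderiv i) f • θ (pderiv b) := by
  rw [lie_smul_der, H.comm, smul_zero, add_zero]

-- preimage of `f D_b`
omit [CharZero F] in
lemma Hyp.exists_pre (f : A F) (b : ℕ) : ∃ e, W e ∧ θ e = f • θ (pderiv b) :=
  H.surj _ (W_smul (H.maps _ (W_pderiv b)) f)

/-- nilpotency index for the operators `D_i` -/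
def Nil (θ : Der F → Der F) : ℕ → A F → Prop
  | 0, p => p = 0
  | m + 1, p => ∀ i, Nil θ m (θ (pderiv i) p)

omit [CharZero F] in
lemma Hyp.nil_of_Pn (m : ℕ) : ∀ (e : Der F) (f : A F), W e → (∀ j, Pn m (e (X j))) →
    θ e = f • θ (pderiv 0) → Nil θ m f := by
  induction m with
  | zero =>
    intro e f he hP h
    have h0 : e = 0 := by
      ext j
      have hj : e (X j) = 0 := hP j
      rw [hj]; rfl
    rw [h0, H.zero] at h
    exact smul_der_eq_zero (H.D_ne_zero 0) h.symm
  | succ m ih =>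
    intro e f he hP h i
    apply ih ⁅(pderiv i : Der F), e⁆ _ (W_lie (W_pderiv i) he)
    · intro j
      rw [lie_pderiv_apply]
      exact hP j i
    · rw [H.lie _ _ (W_pderiv i) he, h, H.lie_smul_D]

omit [CharZero F] in
lemma Hyp.exists_nil (f : A F) : ∃ m, Nil θ m f := by
  obtain ⟨e, he, h⟩ := H.exists_pre f 0
  obtain ⟨m, hm⟩ := exists_Pn_W he
  exact ⟨m, H.nil_of_Pn m e f he hm h⟩

/-- elements killed by all `D_i` correspond to constant fields -/
lemma Hyp.pre_const {f : A F} (hf : ∀ i, θ (pderiv i) f = 0) (b : ℕ) {e : Der F} (he : W e)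
    (h : θ e = f • θ (pderiv b)) : ∃ c : ℕ → F, ∀ j, e (X j) = C (c j) := by
  have h1 : ∀ i, ⁅(pderiv i : Der F), e⁆ = 0 := by
    intro i
    apply H.eq_zero (W_lie (W_pderiv i) he)
    rw [H.lie _ _ (W_pderiv i) he, h, H.lie_smul_D, hf, zero_smul]
  have h2 : ∀ j, ∃ c : F, e (X j) = C c := by
    intro j
    apply const_of_pderiv
    intro i
    rw [← lie_pderiv_apply, h1]
    rfl
  choose c hc using h2
  exact ⟨c, hc⟩

/-- **The common kernel of the `D_i` is the ground field.** -/
lemma Hyp.kernel {f : A F} (hf : ∀ i, θ (pderiv i) f = 0) : ∃ c : F, f = C c := by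
  obtain ⟨e, he, h⟩ := H.exists_pre f 0
  obtain ⟨c, hc⟩ := H.pre_const hf 0 he h
  -- all coordinates but the zeroth vanish
  have key : ∀ i, i ≠ 0 → c i = 0 := by
    intro i hi
    set D0 := θ (pderiv 0) with hD0
    set Di := θ (pderiv i) with hDi
    set Ei := θ (ee i i) with hEi
    have hEi0 : ⁅Ei, D0⁆ = 0 := by
      rw [← lie_skew, hEi, hD0, H.comm_ee, if_neg hi.symm, neg_zero]
    have hEii : ⁅Ei, Di⁆ = -Di := by
      rw [← lie_skew, hEi, hDi, H.comm_ee, if_pos rfl]
    set g := Ei f with hg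
    have h1 : g • D0 = (-(c i)) • Di := by
      have h2 : θ ⁅(ee i i : Der F), e⁆ = ⁅Ei, f • D0⁆ := by
        rw [H.lie _ _ (W_ee i i) he, h]
      rw [lie_ee_const hc, H.smul _ _ (W_pderiv i), lie_smul_der, hEi0, smul_zero, add_zero] at h2
      exact h2.symm
    have hgK : ∀ l, θ (pderiv l) g = 0 := by
      intro l
      apply smul_der_eq_zero (H.D_ne_zero 0)
      rw [← H.lie_smul_D, ← hD0, h1, lie_csmul_der, H.comm, smul_zero]
    have hEg : Ei g = -g := by
      have h3 : (Ei g) • D0 = (-g) • D0 := by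
        have h4 : ⁅Ei, g • D0⁆ = (Ei g) • D0 := by
          rw [lie_smul_der, hEi0, smul_zero, add_zero]
        rw [← h4, h1, lie_csmul_der, hEii]
        have h5 : (-g) • D0 = -(g • D0) := by ext l; simp [Derivation.smul_apply]
        rw [h5, h1, smul_neg]
      have h5 : (Ei g - -g) • D0 = 0 := by rw [sub_smul_der, h3, sub_self]
      exact sub_eq_zero.1 (smul_der_eq_zero (H.D_ne_zero 0) h5)
    have hg2K : ∀ l, θ (pderiv l) (g * g) = 0 := by
      intro l
      rw [Derivation.leibniz, hgK l]; simp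
    obtain ⟨e', he', h'⟩ := H.exists_pre (g * g) 0
    obtain ⟨c', hc'⟩ := H.pre_const hg2K 0 he' h'
    have h6 : ⁅Ei, (g * g) • D0⁆ = (-(c' i)) • Di := by
      rw [← h', ← H.lie _ _ (W_ee i i) he', lie_ee_const hc', H.smul _ _ (W_pderiv i)]
    have h7 : ⁅Ei, (g * g) • D0⁆ = (-(2 : A F) * (g * g)) • D0 := by
      rw [lie_smul_der, hEi0, smul_zero, add_zero, Derivation.leibniz, hEg]
      congr 1
      simp only [smul_eq_mul]; ring
    have h8 : ⁅Ei, ⁅Ei, (g * g) • D0⁆⁆ = -⁅Ei, (g * g) • D0⁆ := by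
      rw [h6, lie_csmul_der, hEii, smul_neg]
    have h9 : ⁅Ei, ⁅Ei, (g * g) • D0⁆⁆ = ((4 : A F) * (g * g)) • D0 := by
      rw [h7, lie_smul_der, hEi0, smul_zero, add_zero]
      congr 1
      have h2 : Ei (-(2 : A F)) = 0 := by
        have : (-(2 : A F)) = C (-2) := by
          rw [C_neg]; congr 1
        rw [this, derivation_C]
      rw [Derivation.leibniz, Derivation.leibniz, hEg, h2]
      simp only [smul_eq_mul]; ring
    have h10 : ((2 : A F) * (g * g)) • D0 = 0 := by
      have : ((2 : A F) * (g * g)) = (4 : A F) * (g * g) + (-(2 : A F) * (g * g)) := by ring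
      rw [this, add_smul_der, ← h9, ← h7, h8, neg_add_cancel]
    have h11 := smul_der_eq_zero (H.D_ne_zero 0) h10
    have hg0 : g = 0 := by
      have h2 : (2 : A F) ≠ 0 := two_ne_zero
      rcases mul_eq_zero.1 h11 with h | h
      · exact absurd h h2
      · exact mul_self_eq_zero.1 h
    rw [hg0, zero_smul] at h1
    have h12 : -(c i) = 0 := csmul_der_eq_zero (H.D_ne_zero i) h1.symm
    exact neg_eq_zero.1 h12
  refine ⟨c 0, ?_⟩
  have h1 : e = c 0 • (pderiv 0 : Der F) := by
    ext j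
    rw [hc j, Derivation.smul_apply, pderiv_Xdelta]
    by_cases hj : 0 = j
    · subst hj; simp [smul_eq_C_mul]
    · rw [if_neg hj, key j (fun h => hj h.symm)]; simp
  rw [h1, H.smul _ _ (W_pderiv 0)] at h
  have h2 : (f - C (c 0)) • θ (pderiv 0) = 0 := by
    rw [sub_smul_der, ← h]
    ext j
    simp [Derivation.smul_apply, smul_eq_C_mul]
  exact sub_eq_zero.1 (smul_der_eq_zero (H.D_ne_zero 0) h2)

end Pool.Agent.H405R3.WInf
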