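import Pool.Agent.H405R3.WInf2

set_option autoImplicit false

namespace Pool.Agent.H405R3.WInf

open MvPolynomial

variable {F : Type} [Field F] [CharZero F]
variable {θ : Der F → Der F} (H : Hyp θ)

omit [CharZero F] in
/-- a nonconstant polynomial all of whose `D_j` are constant -/
lemma exists_linear (m : ℕ) : ∀ f : A F, Nil θ m f → (∀ c : F, f ≠ C c) →
    ∃ h : A F, (∀ c : F, h ≠ C c) ∧ ∀ j, ∃ c : F, θ (pderiv j) h = C c := by
  induction m with
  | zero =>
    intro f hf hc
    have h0 : f = 0 := hf
    exact absurd (h0.trans C_0.symm) (hc 0)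
  | succ m ih =>
    intro f hf hc
    by_cases h : ∀ j, ∃ c : F, θ (pderiv j) f = C c
    · exact ⟨f, hc, h⟩
    · push Not at h
      obtain ⟨j, hj⟩ := h
      exact ih (θ (pderiv j) f) (hf j) hj

include H

/-- coordinates for the `D_i` -/
lemma Hyp.exists_coord : ∃ y : ℕ → A F, ∀ l i, θ (pderiv l) (y i) = if l = i then 1 else 0 := by
  obtain ⟨m, hm⟩ := H.exists_nil (X 0)
  have hX : ∀ c : F, (X 0 : A F) ≠ C c := by
    intro c h
    have h1 := congrArg (pderiv (0 : ℕ)) h
    rw [pderiv_Xdelta, pderiv_C, if_pos rfl] at h1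
    exact one_ne_zero h1
  obtain ⟨h, hh, hc⟩ := exists_linear m (X 0) hm hX
  choose c hc using hc
  have hj : ∃ j, c j ≠ 0 := by
    by_contra hne
    push Not at hne
    obtain ⟨d, hd⟩ := H.kernel (f := h) (fun i => by rw [hc, hne, C_0])
    exact hh d hd
  obtain ⟨j, hj⟩ := hj
  refine ⟨fun i => C (c j)⁻¹ * θ (ee i j) h, fun l i => ?_⟩
  rw [Derivation.leibniz, derivation_C, H.D_ee_apply, hc, derivation_C, zero_add, hc]
  split_ifs with hl
  · rw [smul_zero, add_zero, smul_eq_mul, ← C_mul, inv_mul_cancel₀ hj, C_1]
  · simp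

/-- normalised coordinates -/
lemma Hyp.exists_coord' : ∃ y : ℕ → A F, (∀ l i, θ (pderiv l) (y i) = if l = i then 1 else 0) ∧
    ∀ i j k, θ (ee i j) (y k) = if j = k then y i else 0 := by
  obtain ⟨z, hz⟩ := H.exists_coord
  set y : ℕ → A F := fun i => θ (ee i i) (z i) with hy
  have h1 : ∀ l i, θ (pderiv l) (y i) = if l = i then 1 else 0 := by
    intro l i
    rw [hy]
    simp only
    rw [H.D_ee_apply, hz, hz]
    by_cases hli : l = i
    · subst hli; simp
    · simp [hli]
  -- the error is constant
  have herr : ∀ i j k, ∃ c : F, θ (ee i j) (y k) = (if j = k then y i else 0) + C c := by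
    intro i j k
    obtain ⟨c, hc⟩ := H.kernel (f := θ (ee i j) (y k) - (if j = k then y i else 0)) (by
      intro l
      rw [map_sub, H.D_ee_apply, h1, h1]
      by_cases hli : l = i
      · by_cases hjk : j = k
        · simp only [hli, hjk, if_true, h1]
          split_ifs <;> simp
        · simp only [hli, hjk, if_true, if_false]
          split_ifs <;> simp
      · by_cases hjk : j = k
        · simp only [hli, hjk, if_true, if_false, h1]
          split_ifs <;> simp
        · simp only [hli, hjk, if_false]
          split_ifs <;> simp)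
    exact ⟨c, by rw [← hc]; ring⟩
  have hcomm : ∀ (i j k l : ℕ) (f : A F), θ (ee i j) (θ (ee k l) f) - θ (ee k l) (θ (ee i j) f)
      = (if j = k then θ (ee i l) f else 0) - (if l = i then θ (ee k j) f else 0) := by
    intro i j k l f
    have h := congrArg θ (lie_ee_ee (F := F) i j k l)
    rw [H.lie _ _ (W_ee i j) (W_ee k l), H.sub (by split_ifs; exact W_ee _ _; exact W_zero)
      (by split_ifs; exact W_ee _ _; exact W_zero)] at h
    have h' := congrArg (fun d : Der F => d f) h
    simp only [Derivation.commutator_apply, Derivation.sub_apply] at h'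
    rw [h']
    split_ifs <;> simp [H.zero]
  -- diagonal, same index
  have hdiag : ∀ i, θ (ee i i) (y i) = y i := by
    intro i
    -- `z i` and `y i` differ by a constant
    obtain ⟨c, hc⟩ := H.kernel (f := y i - z i) (by
      intro l; rw [map_sub, h1, hz, sub_self])
    have h3 : y i = z i + C c := by rw [← hc]; ring
    rw [h3, map_add, derivation_C, add_zero]
    exact h3
  have hdiag' : ∀ i k, i ≠ k → θ (ee i i) (y k) = 0 := by
    intro i k hik
    obtain ⟨c, hc⟩ := herr i i k
    rw [if_neg hik, zero_add] at hc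
    have h4 := hcomm k k i i (y k)
    rw [if_neg (Ne.symm hik), if_neg hik, sub_zero, hc, derivation_C, hdiag, hc, zero_sub] at h4
    rw [hc]
    exact neg_eq_zero.1 h4
  refine ⟨y, h1, ?_⟩
  intro i j k
  by_cases hij : i = j
  · subst hij
    by_cases hik : i = k
    · subst hik
      rw [if_pos rfl]; exact hdiag i
    · rw [if_neg hik]; exact hdiag' i k hik
  obtain ⟨c, hc⟩ := herr i j k
  have h5 := hcomm i i i j (y k)
  rw [if_pos rfl, if_neg (Ne.symm hij), sub_zero, hc] at h5
  have h6 : θ (ee i i) (if j = k then y i else 0) = if j = k then y i else 0 := by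
    split_ifs
    · exact hdiag i
    · simp
  rw [map_add, h6, derivation_C, add_zero] at h5
  by_cases hik : i = k
  · subst hik
    rw [hdiag, hc, if_neg (Ne.symm hij), zero_add, zero_sub] at h5
    rw [hc, if_neg (Ne.symm hij), zero_add]
    have h7 : (C c : A F) = 0 := by
      have h8 : (2 : A F) * C c = 0 := by linear_combination -h5
      rcases mul_eq_zero.1 h8 with h | h
      · exact absurd h two_ne_zero
      · exact h
    exact h7
  · rw [hdiag' i k hik, map_zero, sub_zero] at h5
    rw [hc]
    exact h5.symm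

end Pool.Agent.H405R3.WInf
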