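import Pool.Agent.H405R3.WInf3

set_option autoImplicit false

namespace Pool.Agent.H405R3.WInf

open MvPolynomial

variable {F : Type} [Field F] [CharZero F]
variable {θ : Der F → Der F} (H : Hyp θ)

/-- the statement that `θ d` and `d` are intertwined by the substitution `x_i ↦ y_i` -/
def Inter (θ : Der F → Der F) (y : ℕ → A F) (d : Der F) : Prop :=
  ∀ p : A F, θ d (aeval y p) = aeval y (d p)

omit [CharZero F] in
lemma inter_of_X {y : ℕ → A F} {d : Der F} (h : ∀ l, θ d (y l) = aeval y (d (X l))) :
    Inter θ y d := by
  intro p
  induction p using MvPolynomial.induction_on with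
  | C a =>
    rw [derivation_C, map_zero, algHom_C, algebraMap_eq, derivation_C]
  | add p q hp hq => simp only [map_add, hp, hq]
  | mul_X p n hp =>
    rw [map_mul, aeval_X, Derivation.leibniz, Derivation.leibniz, hp, h n, map_add]
    simp only [smul_eq_mul, map_mul, aeval_X]

omit [CharZero F] in
lemma inter_add (H : Hyp θ) {y : ℕ → A F} {d e : Der F} (hd : W d) (he : W e)
    (h1 : Inter θ y d) (h2 : Inter θ y e) : Inter θ y (d + e) := by
  intro p
  rw [H.add d e hd he, Derivation.add_apply, Derivation.add_apply, map_add, h1, h2]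

omit [CharZero F] in
lemma inter_smul (H : Hyp θ) {y : ℕ → A F} {d : Der F} (hd : W d) (c : F)
    (h1 : Inter θ y d) : Inter θ y (c • d) := by
  intro p
  rw [H.smul c d hd, Derivation.smul_apply, Derivation.smul_apply, h1, map_smul]

omit [CharZero F] in
lemma inter_zero (H : Hyp θ) {y : ℕ → A F} : Inter θ y 0 := by
  intro p
  rw [H.zero]; simp

omit [CharZero F] in
lemma inter_lie {y : ℕ → A F} (H : Hyp θ) {d e : Der F} (hd : W d) (he : W e)
    (h1 : Inter θ y d) (q : A F) (hde : θ ⁅d, e⁆ (aeval y q) = aeval y (⁅d, e⁆ q)) :
    θ d (θ e (aeval y q) - aeval y (e q)) = θ e (aeval y (d q)) - aeval y (e (d q)) := by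
  rw [H.lie d e hd he, Derivation.commutator_apply, Derivation.commutator_apply, map_sub,
    h1] at hde
  rw [map_sub, h1]
  linear_combination hde

include H in
lemma Hyp.inter_mono {y : ℕ → A F}
    (hy : ∀ l i, θ (pderiv l) (y i) = if l = i then 1 else 0)
    (hy' : ∀ i j k, θ (ee i j) (y k) = if j = k then y i else 0) (n : ℕ) :
    ∀ (α : ℕ →₀ ℕ) (j : ℕ), α.degree = n →
      Inter θ y ((monomial α (1 : F)) • (pderiv j : Der F)) := by
  have hD : ∀ i, Inter θ y (pderiv i : Der F) := by
    intro i
    apply inter_of_X
    intro l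
    rw [hy, pderiv_Xdelta]
    split_ifs <;> simp
  have hE : ∀ i, Inter θ y (ee i i : Der F) := by
    intro i
    apply inter_of_X
    intro l
    rw [hy', ee, Derivation.smul_apply, pderiv_Xdelta]
    split_ifs <;> simp
  induction n with
  | zero =>
    intro α j hα
    have h0 : α = 0 := (Finsupp.degree_eq_zero_iff α).1 hα
    subst h0
    have : (monomial (0 : ℕ →₀ ℕ) (1 : F)) • (pderiv j : Der F) = pderiv j := by
      ext l
      rw [Derivation.smul_apply]
      have h1 : (monomial (0 : ℕ →₀ ℕ) (1 : F)) = 1 := rfl
      rw [h1, smul_eq_mul, one_mul]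
    rw [this]
    exact hD j
  | succ n ih =>
    intro α j hα
    set e : Der F := (monomial α (1 : F)) • (pderiv j : Der F) with he
    have hWe : W e := W_smul (W_pderiv j) _
    -- brackets with the partial derivatives
    have hder : ∀ i, Inter θ y ⁅(pderiv i : Der F), e⁆ := by
      intro i
      have h1 : ⁅(pderiv i : Der F), e⁆
          = (α i : F) • ((monomial (α - Finsupp.single i 1) (1 : F)) • (pderiv j : Der F)) := by
        rw [he, lie_smul_der, pderiv_comm_lie, smul_zero, add_zero, pderiv_monomial]
        ext l
        simp only [Derivation.smul_apply, smul_eq_mul, one_mul]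
        rw [smul_eq_C_mul, ← mul_assoc, C_mul_monomial, mul_one]
      rw [h1]
      by_cases hi : α i = 0
      · rw [hi, Nat.cast_zero, zero_smul]
        exact inter_zero H
      · apply inter_smul H (W_smul (W_pderiv j) _)
        apply ih
        have h2 : α = (α - Finsupp.single i 1) + Finsupp.single i 1 := by
          rw [tsub_add_cancel_of_le]
          rw [Finsupp.single_le_iff]; omega
        have h3 := congrArg Finsupp.degree h2
        rw [map_add, Finsupp.degree_single, hα] at h3
        omega
    apply inter_of_X
    intro l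
    -- the error is a constant
    obtain ⟨c, hc⟩ := H.kernel (f := θ e (y l) - aeval y (e (X l))) (by
      intro i
      have h1 := inter_lie H (W_pderiv i) hWe (hD i) (X l) (hder i (X l))
      rw [aeval_X] at h1
      rw [h1, pderiv_Xdelta]
      split_ifs
      · rw [map_one, Derivation.map_one_eq_zero, Derivation.map_one_eq_zero, map_zero, sub_zero]
      · simp)
    -- weights
    have hw : ∀ i, ((α i : F) - (if i = j then 1 else 0)) * c = -(if i = l then c else 0) := by
      intro i
      have h1 : ⁅(ee i i : Der F), e⁆ = ((α i : F) - (if i = j then 1 else 0)) • e := by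
        rw [he, lie_smul_der, ee, smul_lie_der, pderiv_comm_lie, smul_zero, zero_sub,
          Derivation.smul_apply, pderiv_Xdelta, pderiv_monomial]
        ext q
        simp only [Derivation.add_apply, Derivation.smul_apply, Derivation.neg_apply, smul_eq_mul,
          one_mul, smul_eq_C_mul, C_sub]
        have h2 : (X i : A F) * monomial (α - Finsupp.single i 1) (α i : F)
            = C (α i : F) * monomial α 1 := by
          by_cases hi : α i = 0
          · rw [hi]; simp
          · rw [C_mul_monomial, mul_one, X, monomial_mul, one_mul]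
            congr 1
            rw [add_comm, tsub_add_cancel_of_le]
            rw [Finsupp.single_le_iff]; omega
        rw [h2]
        by_cases hij : i = j
        · subst hij
          simp only [if_true, C_1]
          ring_nf
        · rw [if_neg (Ne.symm hij), if_neg hij, C_0]
          simp
          ring
      have h2 : θ ⁅(ee i i : Der F), e⁆ (y l) - aeval y (⁅(ee i i : Der F), e⁆ (X l))
          = C (((α i : F) - (if i = j then 1 else 0)) * c) := by
        rw [h1, H.smul _ _ hWe, Derivation.smul_apply, Derivation.smul_apply, map_smul,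
          ← smul_sub, hc, smul_eq_C_mul, C_mul]
      have h3 : θ ⁅(ee i i : Der F), e⁆ (y l) - aeval y (⁅(ee i i : Der F), e⁆ (X l))
          = C (-(if i = l then c else 0)) := by
        rw [H.lie _ _ (W_ee i i) hWe, Derivation.commutator_apply, Derivation.commutator_apply,
          map_sub, ← hE i]
        have h4 : θ e (y l) = aeval y (e (X l)) + C c := by rw [← hc]; ring
        have h5 : (ee i i : Der F) (X l) = if i = l then X i else 0 := by
          rw [ee, Derivation.smul_apply, pderiv_Xdelta]
          split_ifs <;> simp
        rw [h4, map_add, derivation_C, hy', h5]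
        by_cases hil : i = l
        · subst hil
          simp only [if_true]
          rw [h4, C_neg]
          ring
        · simp [hil]
      rw [h2] at h3
      exact C_injective ℕ F h3
    have hc0 : c = 0 := by
      by_contra hne
      -- sum of the weights
      have hw' : ∀ i, (α i : F) = (if i = j then 1 else 0) - (if i = l then 1 else 0) := by
        intro i
        have h1 := hw i
        have h2 : ((α i : F) - ((if i = j then 1 else 0) - (if i = l then 1 else 0))) * c = 0 := by
          split_ifs at h1 ⊢ <;> linear_combination h1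
        exact sub_eq_zero.1 ((mul_eq_zero.1 h2).resolve_right hne)
      have hα0 : α = 0 := by
        ext i
        have h1 := hw' i
        by_cases hjl : j = l
        · subst hjl
          rw [sub_self] at h1
          exact_mod_cast h1
        · have h3 := hw' l
          rw [if_neg (Ne.symm hjl), if_pos rfl, zero_sub] at h3
          exfalso
          have h4 : ((α l + 1 : ℕ) : F) = 0 := by push_cast; rw [h3]; ring
          exact Nat.cast_ne_zero.2 (Nat.succ_ne_zero _) h4
      rw [hα0] at hα
      simp at hα
    rw [hc0, C_0] at hc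
    exact sub_eq_zero.1 hc

include H in
lemma Hyp.inter_all {y : ℕ → A F}
    (hy : ∀ l i, θ (pderiv l) (y i) = if l = i then 1 else 0)
    (hy' : ∀ i j k, θ (ee i j) (y k) = if j = k then y i else 0) {d : Der F} (hd : W d) :
    Inter θ y d := by
  classical
  have h1 : ∀ (j : ℕ) (p : A F), Inter θ y (p • (pderiv j : Der F)) := by
    intro j p
    induction p using MvPolynomial.induction_on' with
    | monomial α a =>
      have h2 : (monomial α a : A F) • (pderiv j : Der F)
          = a • ((monomial α (1 : F)) • (pderiv j : Der F)) := by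
        ext l
        simp only [Derivation.smul_apply, smul_eq_mul]
        rw [smul_eq_C_mul, ← mul_assoc, C_mul_monomial, mul_one]
      rw [h2]
      exact inter_smul H (W_smul (W_pderiv j) _) a (H.inter_mono hy hy' _ α j rfl)
    | add p q hp hq =>
      rw [add_smul_der]
      exact inter_add H (W_smul (W_pderiv j) _) (W_smul (W_pderiv j) _) hp hq
  have h2 : ∀ s : Finset ℕ, Inter θ y (∑ j ∈ s, d (X j) • (pderiv j : Der F)) ∧
      W (∑ j ∈ s, d (X j) • (pderiv j : Der F)) := by
    intro s
    induction s using Finset.induction_on with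
    | empty => exact ⟨by simpa using inter_zero H, by simpa using W_zero⟩
    | insert a s ha ih =>
      rw [Finset.sum_insert ha]
      exact ⟨inter_add H (W_smul (W_pderiv a) _) ih.2 (h1 a _) ih.1,
        W_add (W_smul (W_pderiv a) _) ih.2⟩
  have hd' : Set.Finite {i : ℕ | d (X i) ≠ 0} := hd
  have h3 : d = ∑ j ∈ hd'.toFinset, d (X j) • (pderiv j : Der F) := by
    apply derivation_ext
    intro l
    have h4 : ∀ s : Finset ℕ, (∑ j ∈ s, d (X j) • (pderiv j : Der F)) (X l)
        = ∑ j ∈ s, (d (X j) • (pderiv j : Der F)) (X l) := by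
      intro s
      induction s using Finset.induction_on with
      | empty => simp
      | insert a s ha ih => rw [Finset.sum_insert ha, Finset.sum_insert ha, Derivation.add_apply, ih]
    rw [h4]
    simp only [Derivation.smul_apply, pderiv_Xdelta, smul_eq_mul, mul_ite, mul_one, mul_zero]
    rw [Finset.sum_ite_eq']
    split_ifs with h
    · rfl
    · rw [Set.Finite.mem_toFinset] at h
      by_contra h'
      exact h h'
  rw [h3]
  exact (h2 _).1

include H in
/-- **Every automorphism of `W_∞` is conjugation.** -/
theorem Hyp.main : ∃ φ : MvPolynomial ℕ F ≃ₐ[F] MvPolynomial ℕ F,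
    (∀ n : ℕ, Set.Finite {i : ℕ | n ∈ (φ (X i)).vars} ∧
      Set.Finite {i : ℕ | n ∈ (φ.symm (X i)).vars}) ∧
    ∀ d : Der F, W d → ∀ f : A F, θ d f = φ (d (φ.symm f)) := by
  obtain ⟨y, hy, hy'⟩ := H.exists_coord'
  have hI : ∀ {d : Der F}, W d → Inter θ y d := fun hd => H.inter_all hy hy' hd
  have hsurj : Function.Surjective (aeval y : A F →ₐ[F] A F) := by
    intro f
    obtain ⟨e, he, h⟩ := H.exists_pre f 0
    refine ⟨e (X 0), ?_⟩
    rw [← hI he, h, aeval_X, Derivation.smul_apply, hy, if_pos rfl, smul_eq_mul, mul_one]
  have hinj : Function.Injective (aeval y : A F →ₐ[F] A F) := by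
    rw [injective_iff_map_eq_zero]
    intro p hp
    have hW : W (p • (pderiv 0 : Der F)) := W_smul (W_pderiv 0) p
    have h1 : θ (p • (pderiv 0 : Der F)) = 0 := by
      apply derivation_ext
      intro l
      obtain ⟨q, hq⟩ := hsurj (X l)
      rw [← hq, hI hW, Derivation.smul_apply, smul_eq_mul, map_mul, hp, zero_mul]
      rfl
    have h2 := H.eq_zero hW h1
    have h3 : (pderiv 0 : Der F) ≠ 0 := by
      intro h
      have h4 := congrArg (fun d : Der F => d (X 0)) h
      simp only [pderiv_Xdelta, if_true, Derivation.zero_apply] at h4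
      exact one_ne_zero h4
    exact smul_der_eq_zero h3 h2
  set φ : A F ≃ₐ[F] A F := AlgEquiv.ofBijective (aeval y) ⟨hinj, hsurj⟩ with hφ
  have hφa : ∀ p, φ p = aeval y p := fun p => rfl
  have hconj : ∀ d : Der F, W d → ∀ f : A F, θ d f = φ (d (φ.symm f)) := by
    intro d hd f
    rw [hφa, ← hI hd]
    congr 1
    exact (φ.apply_symm_apply f).symm
  have hvars : ∀ (n : ℕ) (p : A F), n ∈ p.vars → pderiv n p ≠ 0 := by
    intro n p hn h
    rw [mem_vars_iff_mem_support] at hn
    obtain ⟨d, hd, hdi⟩ := hn
    have h1 := congrArg (coeff (d - Finsupp.single n 1)) h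
    have hdi' : d n ≠ 0 := by
      rwa [Finsupp.mem_support_iff] at hdi
    rw [coeff_pderiv, coeff_zero] at h1
    have h2 : d - Finsupp.single n 1 + Finsupp.single n 1 = d := by
      apply tsub_add_cancel_of_le
      rw [Finsupp.single_le_iff]
      omega
    rw [h2] at h1
    rw [mem_support_iff] at hd
    rcases mul_eq_zero.1 h1 with h3 | h3
    · exact hd h3
    · norm_cast at h3
  refine ⟨φ, fun n => ⟨?_, ?_⟩, hconj⟩
  · obtain ⟨e, he, h⟩ := H.surj _ (W_pderiv n)
    have he' : Set.Finite {i : ℕ | e (X i) ≠ 0} := he
    apply he'.subset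
    intro i hi h0
    apply hvars n _ hi
    rw [← h, hconj e he, AlgEquiv.symm_apply_apply, h0, map_zero]
  · have h : Set.Finite {i : ℕ | θ (pderiv n) (X i) ≠ 0} := H.maps _ (W_pderiv n)
    apply h.subset
    intro i hi h0
    apply hvars n _ hi
    rw [hconj _ (W_pderiv n)] at h0
    exact (map_eq_zero_iff φ φ.injective).1 h0

end Pool.Agent.H405R3.WInf
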